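import Pool.Agent.L0h46.CV.Stm

/-!
Project CV: assembly.
-/

set_option autoImplicit false

namespace Pool.Agent.L0h46.CV

open Finset Polynomial

/-- the size of the coefficients -/
def cF (d : ℕ) (c : ℕ → ℤ) : ℝ := ∑ i ∈ range (d + 1), |(c i : ℝ)|

theorem cF_nonneg (d : ℕ) (c : ℕ → ℤ) : 0 ≤ cF d c := by
  unfold cF
  exact sum_nonneg fun i _ => abs_nonneg _

theorem ht1 (x : ℤ × ℤ) : |(x.1 : ℝ)| ≤ (ht x : ℝ) := by
  have h : x.1.natAbs ≤ ht x := le_max_left _ _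
  have h2 : ((x.1.natAbs : ℕ) : ℝ) ≤ (ht x : ℝ) := by exact_mod_cast h
  rwa [Nat.cast_natAbs, Int.cast_abs] at h2

theorem ht2 (x : ℤ × ℤ) : |(x.2 : ℝ)| ≤ (ht x : ℝ) := by
  have h : x.2.natAbs ≤ ht x := le_max_right _ _
  have h2 : ((x.2.natAbs : ℕ) : ℝ) ≤ (ht x : ℝ) := by exact_mod_cast h
  rwa [Nat.cast_natAbs, Int.cast_abs] at h2

theorem fm_le (d : ℕ) (c : ℕ → ℤ) (x : ℤ × ℤ) {B : ℝ} (hB : (ht x : ℝ) ≤ B) :
    |(fm d c x : ℝ)| ≤ cF d c * B ^ d := by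
  unfold fm cF
  push_cast
  rw [sum_mul]
  refine (abs_sum_le_sum_abs _ _).trans (sum_le_sum fun i hi => ?_)
  rw [mem_range] at hi
  have h1 : |(x.1 : ℝ)| ^ i ≤ B ^ i := pow_le_pow_left₀ (abs_nonneg _) ((ht1 x).trans hB) _
  have h2 : |(x.2 : ℝ)| ^ (d - i) ≤ B ^ (d - i) :=
    pow_le_pow_left₀ (abs_nonneg _) ((ht2 x).trans hB) _
  have h0 : 0 ≤ B := (Nat.cast_nonneg _).trans hB
  rw [abs_mul, abs_mul, abs_pow, abs_pow]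
  calc |(c i : ℝ)| * |(x.1 : ℝ)| ^ i * |(x.2 : ℝ)| ^ (d - i) ≤
        |(c i : ℝ)| * B ^ i * B ^ (d - i) := by gcongr
    _ = |(c i : ℝ)| * B ^ d := by
        rw [mul_assoc, ← pow_add]
        congr 2
        omega

/-- the box is finite -/
theorem box (B : ℝ) (hB : 1 ≤ B) : {x : ℤ × ℤ | (ht x : ℝ) ≤ B}.Finite ∧
    ∀ E : Finset (ℤ × ℤ), (∀ x ∈ E, (ht x : ℝ) ≤ B) → (E.card : ℝ) ≤ 9 * B ^ 2 := by
  classical
  have hsub : ∀ x : ℤ × ℤ, (ht x : ℝ) ≤ B → x ∈ (Icc (-(⌊B⌋₊ : ℤ)) ⌊B⌋₊) ×ˢ (Icc (-(⌊B⌋₊ : ℤ)) ⌊B⌋₊) := by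
    intro x hx
    have h1 : ht x ≤ ⌊B⌋₊ := Nat.le_floor hx
    have h2 : x.1.natAbs ≤ ⌊B⌋₊ := (le_max_left _ _).trans h1
    have h3 : x.2.natAbs ≤ ⌊B⌋₊ := (le_max_right _ _).trans h1
    rw [mem_product, mem_Icc, mem_Icc]
    omega
  refine ⟨Set.Finite.subset (Finset.finite_toSet _) fun x hx => Finset.mem_coe.2 (hsub x hx), ?_⟩
  intro E hE
  have h1 : E.card ≤ ((Icc (-(⌊B⌋₊ : ℤ)) ⌊B⌋₊) ×ˢ (Icc (-(⌊B⌋₊ : ℤ)) ⌊B⌋₊)).card :=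
    card_le_card fun x hx => hsub x (hE x hx)
  rw [card_product, Int.card_Icc] at h1
  have h2 : ((⌊B⌋₊ : ℤ) + 1 - -(⌊B⌋₊ : ℤ)).toNat = 2 * ⌊B⌋₊ + 1 := by omega
  rw [h2] at h1
  have h3 : (⌊B⌋₊ : ℝ) ≤ B := Nat.floor_le (by linarith)
  have h4 : (E.card : ℝ) ≤ (2 * (⌊B⌋₊ : ℝ) + 1) * (2 * (⌊B⌋₊ : ℝ) + 1) := by exact_mod_cast h1
  have h5 : 0 ≤ (⌊B⌋₊ : ℝ) := Nat.cast_nonneg _
  nlinarith

/-- the number of `m`-full numbers -/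
theorem full_count (hF : S_FUL) (m : ℕ) (σ : ℝ) (hm : 1 ≤ m) (hσ : 1 / (m : ℝ) < σ) :
    ∃ K : ℝ, 0 < K ∧ ∀ E : Finset ℕ, (∀ n ∈ E, MF m n) →
      (∀ W : ℝ, 0 < W → (∀ n ∈ E, (n : ℝ) ≤ W) → (E.card : ℝ) ≤ K * W ^ σ) ∧
      (σ ≤ 1 → ∀ V : ℝ, 0 < V → (∀ n ∈ E, V ≤ (n : ℝ)) → ∑ n ∈ E, 1 / (n : ℝ) ≤ K * V ^ (σ - 1)) := by
  obtain ⟨K, hK, h⟩ := hF m σ hm hσ
  have hσ0 : 0 < σ := lt_of_le_of_lt (by positivity) hσ
  refine ⟨K, hK, fun E hE => ⟨?_, ?_⟩⟩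
  · intro W hW0 hW
    have h1 := h E hE
    have h2 : (E.card : ℝ) * W ^ (-σ) ≤ ∑ n ∈ E, (n : ℝ) ^ (-σ) := by
      rw [← nsmul_eq_mul]
      refine card_nsmul_le_sum _ _ _ fun n hn => ?_
      exact Real.rpow_le_rpow_of_nonpos (by exact_mod_cast (hE n hn).1) (hW n hn) (by linarith)
    have h3 := h2.trans h1
    rw [Real.rpow_neg hW0.le, ← div_eq_mul_inv, div_le_iff₀ (by positivity)] at h3
    exact h3
  · intro hσ1 V hV hVE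
    calc ∑ n ∈ E, 1 / (n : ℝ) ≤ ∑ n ∈ E, V ^ (σ - 1) * (n : ℝ) ^ (-σ) := by
          refine sum_le_sum fun n hn => ?_
          have hn0 : (0 : ℝ) < n := by exact_mod_cast (hE n hn).1
          have h1 : (n : ℝ) ^ (σ - 1) ≤ V ^ (σ - 1) :=
            Real.rpow_le_rpow_of_nonpos hV (hVE n hn) (by linarith)
          have h2 : 1 / (n : ℝ) = (n : ℝ) ^ (σ - 1) * (n : ℝ) ^ (-σ) := by
            rw [← Real.rpow_add hn0, one_div, ← Real.rpow_neg_one]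
            congr 1
            ring
          rw [h2]
          exact mul_le_mul_of_nonneg_right h1 (by positivity)
      _ = V ^ (σ - 1) * ∑ n ∈ E, (n : ℝ) ^ (-σ) := by rw [mul_sum]
      _ ≤ V ^ (σ - 1) * K := mul_le_mul_of_nonneg_left (h E hE) (by positivity)
      _ = K * V ^ (σ - 1) := mul_comm _ _

/-- the points at which one of the numbers `D ∈ Ds` divides the form -/
theorem cover (hTB : S_TB) (hF : S_FUL) (d : ℕ) (c : ℕ → ℤ) (hd : 1 ≤ d) (m : ℕ) (hm : 1 ≤ m)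
    (σ ε : ℝ) (hσ : 1 / (m : ℝ) < σ) (hσ1 : σ ≤ 1) (hε : 0 < ε) :
    ∃ K : ℝ, 0 < K ∧ ∀ B V W : ℝ, 1 ≤ B → 0 < V → 1 ≤ W → ∀ Ds : Finset ℕ,
      (∀ D ∈ Ds, MF m D ∧ (∀ p : ℕ, p.Prime → p ∣ D → Gd d c p) ∧ V ≤ (D : ℝ) ∧ (D : ℝ) ≤ W) →
      ∀ E : Finset (ℤ × ℤ), (∀ x ∈ E, IsCoprime x.1 x.2 ∧ (ht x : ℝ) ≤ B ∧
        ∃ D ∈ Ds, (D : ℤ) ∣ fm d c x) →
      (E.card : ℝ) ≤ K * (B * W) ^ ε * (Ds.card + B ^ 2 * V ^ (σ - 1)) := by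
  classical
  obtain ⟨K1, hK1, h1⟩ := hTB d c hd ε hε
  obtain ⟨K2, hK2, h2⟩ := full_count hF m σ hm hσ
  refine ⟨K1 * (1 + K2), by positivity, ?_⟩
  intro B V W hB hV hW Ds hDs E hE
  have hsub : E ⊆ Ds.biUnion fun D => E.filter fun x => (D : ℤ) ∣ fm d c x := by
    intro x hx
    obtain ⟨-, -, D, hD, hdvd⟩ := hE x hx
    exact mem_biUnion.2 ⟨D, hD, mem_filter.2 ⟨hx, hdvd⟩⟩
  have h3 : (E.card : ℝ) ≤ ∑ D ∈ Ds, ((E.filter fun x => (D : ℤ) ∣ fm d c x).card : ℝ) := by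
    exact_mod_cast (card_le_card hsub).trans card_biUnion_le
  have hP : 0 ≤ (B * W) ^ ε := by positivity
  have h4 : ∀ D ∈ Ds, ((E.filter fun x => (D : ℤ) ∣ fm d c x).card : ℝ) ≤
      K1 * (B * W) ^ ε * (1 + B ^ 2 * (1 / (D : ℝ))) := by
    intro D hD
    obtain ⟨hMF, hg, hVD, hDW⟩ := hDs D hD
    refine (h1 B hB D hMF.1 hg _ ?_).trans ?_
    · intro x hx
      rw [mem_filter] at hx
      exact ⟨(hE x hx.1).1, (hE x hx.1).2.1, hx.2⟩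
    · have h5 : (B * (D : ℝ)) ^ ε ≤ (B * W) ^ ε :=
        Real.rpow_le_rpow (by positivity) (mul_le_mul_of_nonneg_left hDW (by linarith)) hε.le
      have h6 : B ^ 2 / (D : ℝ) = B ^ 2 * (1 / (D : ℝ)) := by ring
      rw [h6]
      have h7 : 0 ≤ 1 + B ^ 2 * (1 / (D : ℝ)) := by positivity
      gcongr
  have h5 := (h2 Ds fun D hD => (hDs D hD).1).2 hσ1 V hV fun D hD => (hDs D hD).2.2.1
  have hVp : 0 ≤ V ^ (σ - 1) := by positivity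
  calc (E.card : ℝ) ≤ ∑ D ∈ Ds, K1 * (B * W) ^ ε * (1 + B ^ 2 * (1 / (D : ℝ))) :=
        h3.trans (sum_le_sum h4)
    _ = K1 * (B * W) ^ ε * (Ds.card + B ^ 2 * ∑ D ∈ Ds, 1 / (D : ℝ)) := by
        rw [← mul_sum, sum_add_distrib, ← mul_sum, sum_const, nsmul_eq_mul, mul_one]
    _ ≤ K1 * (B * W) ^ ε * (Ds.card + B ^ 2 * (K2 * V ^ (σ - 1))) := by gcongr
    _ ≤ K1 * (B * W) ^ ε * ((1 + K2) * (Ds.card + B ^ 2 * V ^ (σ - 1))) := by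
        refine mul_le_mul_of_nonneg_left ?_ (by positivity)
        have h8 : (0 : ℝ) ≤ Ds.card := Nat.cast_nonneg _
        have h9 : 0 ≤ B ^ 2 * V ^ (σ - 1) := by positivity
        nlinarith
    _ = K1 * (1 + K2) * (B * W) ^ ε * (Ds.card + B ^ 2 * V ^ (σ - 1)) := by ring

/-- the points at which the form is `k y ^ t` -/
theorem cover1 (hWB : S_WB) (d : ℕ) (c : ℕ → ℤ) (hd : 3 ≤ d) (hR : Red d c) (M : ℕ) (ε : ℝ)
    (hε : 0 < ε) : ∃ K : ℝ, 0 < K ∧ ∀ B : ℝ, 1 ≤ B → ∀ Ks : Finset ℤ,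
      (∀ k ∈ Ks, k ≠ 0 ∧ |(k : ℝ)| ≤ M * B ^ M) → ∀ E : Finset (ℤ × ℤ),
      (∀ x ∈ E, IsCoprime x.1 x.2 ∧ (ht x : ℝ) ≤ B ∧ ∃ k ∈ Ks, ∃ t : ℕ, t.Prime ∧ t ≤ d ∧
        ∃ y : ℤ, fm d c x = k * y ^ t) → (E.card : ℝ) ≤ K * Ks.card * B ^ ((3 : ℝ) / 2 + ε) := by
  classical
  have h0 : ∀ t : ℕ, ∃ K : ℝ, 0 < K ∧ (t.Prime → ∀ B : ℝ, 1 ≤ B → ∀ k : ℤ, k ≠ 0 →
      |(k : ℝ)| ≤ M * B ^ M → ∀ E : Finset (ℤ × ℤ), (∀ x ∈ E, IsCoprime x.1 x.2 ∧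
        (ht x : ℝ) ≤ B ∧ ∃ y : ℤ, fm d c x = k * y ^ t) →
        (E.card : ℝ) ≤ K * B ^ ((3 : ℝ) / 2 + ε)) := by
    intro t
    by_cases ht : t.Prime
    · obtain ⟨K, hK, h⟩ := hWB t d c ht hd hR M ε hε
      exact ⟨K, hK, fun _ => h⟩
    · exact ⟨1, one_pos, fun h => absurd h ht⟩
  choose Kt hKt h1 using h0
  refine ⟨∑ t ∈ range (d + 1), Kt t, sum_pos (fun t _ => hKt t) (by simp), ?_⟩
  intro B hB Ks hKs E hE
  have hsub : E ⊆ Ks.biUnion fun k => (range (d + 1)).biUnion fun t =>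
      E.filter fun x => t.Prime ∧ ∃ y : ℤ, fm d c x = k * y ^ t := by
    intro x hx
    obtain ⟨-, -, k, hk, t, ht, htd, y, hy⟩ := hE x hx
    exact mem_biUnion.2 ⟨k, hk, mem_biUnion.2 ⟨t, mem_range.2 (by omega),
      mem_filter.2 ⟨hx, ht, y, hy⟩⟩⟩
  have h3 : (E.card : ℝ) ≤ ∑ k ∈ Ks, ∑ t ∈ range (d + 1),
      ((E.filter fun x => t.Prime ∧ ∃ y : ℤ, fm d c x = k * y ^ t).card : ℝ) := by
    have h4 : E.card ≤ ∑ k ∈ Ks, ∑ t ∈ range (d + 1),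
        (E.filter fun x => t.Prime ∧ ∃ y : ℤ, fm d c x = k * y ^ t).card :=
      ((card_le_card hsub).trans card_biUnion_le).trans (sum_le_sum fun k _ => card_biUnion_le)
    exact_mod_cast h4
  refine h3.trans ?_
  have h4 : ∀ k ∈ Ks, ∑ t ∈ range (d + 1),
      ((E.filter fun x => t.Prime ∧ ∃ y : ℤ, fm d c x = k * y ^ t).card : ℝ) ≤
      (∑ t ∈ range (d + 1), Kt t) * B ^ ((3 : ℝ) / 2 + ε) := by
    intro k hk
    rw [sum_mul]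
    refine sum_le_sum fun t _ => ?_
    by_cases ht : t.Prime
    · refine h1 t ht B hB k (hKs k hk).1 (hKs k hk).2 _ ?_
      intro x hx
      rw [mem_filter] at hx
      exact ⟨(hE x hx.1).1, (hE x hx.1).2.1, hx.2.2⟩
    · have : (E.filter fun x => t.Prime ∧ ∃ y : ℤ, fm d c x = k * y ^ t) = ∅ := by
        rw [filter_eq_empty_iff]
        rintro x - ⟨h, -⟩
        exact ht h
      rw [this, card_empty, Nat.cast_zero]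
      have := hKt t
      positivity
  refine (sum_le_sum h4).trans ?_
  rw [sum_const, nsmul_eq_mul]
  apply le_of_eq
  ring

/-- the exponents -/
theorem exps (m d : ℕ) (hm : 2 ≤ m) (hd : 3 ≤ d) (hdm : d < 2 * (2 * m + 1)) (ε : ℝ) (hε : 0 < ε)
    (hε1 : ε ≤ 1) (G : ℝ)
    (hG : G = max (3 / 2 + 1 / (2 * (m : ℝ))) (d / (2 * (m : ℝ) + 1))) :
    ∃ e1 σ θ : ℝ, 0 < e1 ∧ 1 / (m : ℝ) < σ ∧ σ ≤ 1 ∧ 1 ≤ θ ∧ 0 ≤ G ∧
      (d : ℝ) + ε / 4 ≤ θ * (2 * (m : ℝ) + 1) ∧ (d : ℝ) + ε / 4 ≤ θ * ((d : ℝ) + 1) ∧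
      d * e1 + σ / 2 + ((3 : ℝ) / 2 + e1) ≤ G + ε ∧
      e1 * (1 + θ * m) + (G + ε / 4) ≤ G + ε ∧ θ ≤ G + ε / 4 ∧ 1 / 2 + 3 / 2 * σ ≤ G + ε / 4 ∧
      e1 * 3 + (G + ε / 4) ≤ G + ε ∧ 3 / 2 + σ / 2 ≤ G + ε / 4 ∧ 2 * σ ≤ G + ε / 4 := by
  have hmR : (2 : ℝ) ≤ m := by exact_mod_cast hm
  have hdR : (3 : ℝ) ≤ d := by exact_mod_cast hd
  have hdmR : (d : ℝ) < 2 * (2 * m + 1) := by exact_mod_cast hdm
  obtain ⟨e1, he1def⟩ : ∃ e1 : ℝ, e1 = ε / (8 * (m + d + 2)) := ⟨_, rfl⟩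
  have he1 : 0 < e1 := by rw [he1def]; positivity
  have he1m : e1 * m * 8 + e1 * d * 8 + e1 * 16 = ε := by
    rw [he1def]
    field_simp
    ring
  have hem : 0 ≤ e1 * m := by positivity
  have hed : 0 ≤ e1 * d := by positivity
  have hem2 : e1 * 2 ≤ e1 * m := mul_le_mul_of_nonneg_left hmR he1.le
  have hed3 : e1 * 3 ≤ e1 * d := mul_le_mul_of_nonneg_left hdR he1.le
  obtain ⟨M1, hM1⟩ : ∃ M1 : ℝ, M1 = 1 / (m : ℝ) := ⟨_, rfl⟩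
  have hminv : M1 ≤ 1 / 2 := by
    rw [hM1, div_le_div_iff₀ (by positivity) (by norm_num)]
    linarith
  have hminv0 : 0 < M1 := by rw [hM1]; positivity
  have h2m : 1 / (2 * (m : ℝ)) = M1 / 2 := by rw [hM1]; ring
  obtain ⟨D1, hD1⟩ : ∃ D1 : ℝ, D1 = d / (2 * (m : ℝ) + 1) := ⟨_, rfl⟩
  have hD1m : D1 * (2 * (m : ℝ) + 1) = d := by rw [hD1]; field_simp
  have hD12 : D1 < 2 := by
    rw [hD1, div_lt_iff₀ (by positivity)]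
    linarith
  rw [h2m, ← hD1] at hG
  have hG1 : 3 / 2 + M1 / 2 ≤ G := by rw [hG]; exact le_max_left _ _
  have hG2 : D1 ≤ G := by rw [hG]; exact le_max_right _ _
  obtain ⟨θ, hθ⟩ : ∃ θ : ℝ, θ = max 1 D1 + ε / 4 := ⟨_, rfl⟩
  have h1 : max 1 D1 ≤ G := max_le (by linarith) hG2
  have h2 : (1 : ℝ) ≤ max 1 D1 := le_max_left _ _
  have h3 : D1 ≤ max 1 D1 := le_max_right _ _
  have h4 : max 1 D1 ≤ 2 := max_le (by norm_num) hD12.le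
  rw [← hM1]
  refine ⟨e1, M1 + e1, θ, he1, by linarith, by linarith, by linarith, by linarith, ?_, ?_, ?_, ?_,
    by linarith, by linarith, by linarith, by linarith, by linarith⟩
  · have h5 : (D1 + ε / 4) * (2 * (m : ℝ) + 1) ≤ θ * (2 * (m : ℝ) + 1) :=
      mul_le_mul_of_nonneg_right (by linarith) (by positivity)
    have h6 : 0 ≤ ε / 4 * m := by positivity
    have h7 : (D1 + ε / 4) * (2 * (m : ℝ) + 1) = D1 * (2 * (m : ℝ) + 1) + 2 * (ε / 4 * m) + ε / 4 := by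
      ring
    linarith
  · have h5 : (1 + ε / 4) * ((d : ℝ) + 1) ≤ θ * ((d : ℝ) + 1) :=
      mul_le_mul_of_nonneg_right (by linarith) (by positivity)
    have h6 : 0 ≤ ε / 4 * d := by positivity
    have h7 : (1 + ε / 4) * ((d : ℝ) + 1) = d + 1 + ε / 4 * d + ε / 4 := by ring
    linarith
  · have : (d : ℝ) * e1 = e1 * d := mul_comm _ _
    rw [this]
    linarith
  · have h5 : e1 * (θ * m) ≤ e1 * m * 3 := by
      have : θ * m ≤ 3 * m := mul_le_mul_of_nonneg_right (by linarith) (by positivity)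
      calc e1 * (θ * m) ≤ e1 * (3 * m) := mul_le_mul_of_nonneg_left this he1.le
        _ = e1 * m * 3 := by ring
    have h6 : e1 * (1 + θ * m) = e1 + e1 * (θ * m) := by ring
    rw [h6]
    linarith

/-- the first part -/
theorem part1 (B KW KS KF CF e1 σ G ε : ℝ) (hB1 : 1 ≤ B) (hKW : 0 < KW) (hKS : 0 < KS)
    (hKF : 0 < KF) (hCF : 1 ≤ CF) (d : ℕ) (X Y : ℝ) (hX : X = CF * B ^ d)
    (hY : Y = B ^ ((1 : ℝ) / 2)) (a s k n : ℝ) (hk : k ≤ 2 * (s * a)) (hs0 : 0 ≤ s)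
    (hs : s ≤ KS * X ^ e1) (ha0 : 0 ≤ a) (ha : a ≤ KF * Y ^ σ)
    (hn : n ≤ KW * k * B ^ ((3 : ℝ) / 2 + e1)) (he : d * e1 + σ / 2 + ((3 : ℝ) / 2 + e1) ≤ G + ε) :
    n ≤ KW * (2 * (KS * CF ^ e1 * KF)) * B ^ (G + ε) := by
  have hBpos : 0 < B := by linarith
  have hX0 : 0 ≤ X := by rw [hX]; positivity
  have h2 : s * a ≤ (KS * X ^ e1) * (KF * Y ^ σ) := mul_le_mul hs ha ha0 (by positivity)
  have h3 : X ^ e1 = CF ^ e1 * B ^ (d * e1) := by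
    rw [hX, Real.mul_rpow (by linarith) (by positivity), ← Real.rpow_natCast,
      ← Real.rpow_mul hBpos.le]
  have h4 : Y ^ σ = B ^ (σ / 2) := by
    rw [hY, ← Real.rpow_mul hBpos.le]
    congr 1
    ring
  calc n ≤ KW * k * B ^ ((3 : ℝ) / 2 + e1) := hn
    _ ≤ KW * (2 * ((KS * X ^ e1) * (KF * Y ^ σ))) * B ^ ((3 : ℝ) / 2 + e1) := by
        have h5 : k ≤ 2 * ((KS * X ^ e1) * (KF * Y ^ σ)) := hk.trans (by linarith)
        gcongr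
    _ = KW * (2 * (KS * CF ^ e1 * KF)) * (B ^ (d * e1) * B ^ (σ / 2) * B ^ ((3 : ℝ) / 2 + e1)) := by
        rw [h3, h4]
        ring
    _ = KW * (2 * (KS * CF ^ e1 * KF)) * B ^ (d * e1 + σ / 2 + ((3 : ℝ) / 2 + e1)) := by
        rw [← Real.rpow_add hBpos, ← Real.rpow_add hBpos]
    _ ≤ KW * (2 * (KS * CF ^ e1 * KF)) * B ^ (G + ε) :=
        mul_le_mul_of_nonneg_left (Real.rpow_le_rpow_of_exponent_le hB1 he) (by positivity)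

/-- the second part -/
theorem part2 (B KC e1 σ θ G ε : ℝ) (hB1 : 1 ≤ B) (hKC : 0 < KC) (m : ℕ) (Z R : ℝ)
    (hZ : Z = B ^ θ) (hR : R = B ^ ((3 : ℝ) / 2)) (n k : ℝ) (hk : k ≤ 2 * Z) (hk0 : 0 ≤ k)
    (hn : n ≤ KC * (B * Z ^ m) ^ e1 * (k + B ^ 2 * R ^ (σ - 1)))
    (h1 : e1 * (1 + θ * m) + (G + ε / 4) ≤ G + ε) (h2 : θ ≤ G + ε / 4)
    (h3 : 1 / 2 + 3 / 2 * σ ≤ G + ε / 4) : n ≤ KC * 3 * B ^ (G + ε) := by
  have hBpos : 0 < B := by linarith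
  have e2 : (B * Z ^ m) ^ e1 = B ^ (e1 * (1 + θ * m)) := by
    have : B * Z ^ m = B ^ (1 + θ * m) := by
      rw [Real.rpow_add hBpos, Real.rpow_one, hZ, ← Real.rpow_natCast,
        ← Real.rpow_mul hBpos.le]
    rw [this, ← Real.rpow_mul hBpos.le]
    congr 1
    ring
  have e3 : B ^ 2 * R ^ (σ - 1) = B ^ (1 / 2 + 3 / 2 * σ) := by
    rw [hR, ← Real.rpow_mul hBpos.le, ← Real.rpow_natCast, ← Real.rpow_add hBpos]
    congr 1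
    push_cast
    ring
  have h4 : B ^ (1 / 2 + 3 / 2 * σ) ≤ B ^ (G + ε / 4) := Real.rpow_le_rpow_of_exponent_le hB1 h3
  have h5 : Z ≤ B ^ (G + ε / 4) := by
    rw [hZ]
    exact Real.rpow_le_rpow_of_exponent_le hB1 h2
  rw [e2, e3] at hn
  have h6 : k + B ^ (1 / 2 + 3 / 2 * σ) ≤ 3 * B ^ (G + ε / 4) := by linarith
  calc n ≤ KC * B ^ (e1 * (1 + θ * m)) * (k + B ^ (1 / 2 + 3 / 2 * σ)) := hn
    _ ≤ KC * B ^ (e1 * (1 + θ * m)) * (3 * B ^ (G + ε / 4)) :=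
        mul_le_mul_of_nonneg_left h6 (by positivity)
    _ = KC * 3 * (B ^ (e1 * (1 + θ * m)) * B ^ (G + ε / 4)) := by ring
    _ = KC * 3 * B ^ (e1 * (1 + θ * m) + (G + ε / 4)) := by rw [Real.rpow_add hBpos (e1 * (1 + θ * m))]
    _ ≤ KC * 3 * B ^ (G + ε) :=
        mul_le_mul_of_nonneg_left (Real.rpow_le_rpow_of_exponent_le hB1 h1) (by positivity)

/-- the third part -/
theorem part3 (B KC KF e1 σ G ε : ℝ) (hB1 : 1 ≤ B) (hKC : 0 < KC) (hKF : 0 < KF) (Y : ℝ)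
    (hY : Y = B ^ ((1 : ℝ) / 2)) (n k : ℝ) (hk : k ≤ KF * (B ^ 2) ^ σ) (hk0 : 0 ≤ k)
    (hn : n ≤ KC * (B * B ^ 2) ^ e1 * (k + B ^ 2 * Y ^ (σ - 1)))
    (h1 : e1 * 3 + (G + ε / 4) ≤ G + ε) (h2 : 3 / 2 + σ / 2 ≤ G + ε / 4)
    (h3 : 2 * σ ≤ G + ε / 4) : n ≤ KC * (KF + 1) * B ^ (G + ε) := by
  have hBpos : 0 < B := by linarith
  have e2 : (B * B ^ 2) ^ e1 = B ^ (e1 * 3) := by
    have : B * B ^ 2 = B ^ (3 : ℝ) := by
      rw [← pow_succ', ← Real.rpow_natCast]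
      norm_num
    rw [this, ← Real.rpow_mul hBpos.le]
    congr 1
    ring
  have e3 : B ^ 2 * Y ^ (σ - 1) = B ^ (3 / 2 + σ / 2) := by
    rw [hY, ← Real.rpow_mul hBpos.le, ← Real.rpow_natCast, ← Real.rpow_add hBpos]
    congr 1
    push_cast
    ring
  have e4 : (B ^ 2) ^ σ = B ^ (2 * σ) := by
    rw [← Real.rpow_natCast, ← Real.rpow_mul hBpos.le]
    norm_num
  have h4 : B ^ (3 / 2 + σ / 2) ≤ B ^ (G + ε / 4) := Real.rpow_le_rpow_of_exponent_le hB1 h2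
  have h5 : B ^ (2 * σ) ≤ B ^ (G + ε / 4) := Real.rpow_le_rpow_of_exponent_le hB1 h3
  rw [e2, e3] at hn
  rw [e4] at hk
  have h6 : k + B ^ (3 / 2 + σ / 2) ≤ (KF + 1) * B ^ (G + ε / 4) := by
    have h7 : KF * B ^ (2 * σ) ≤ KF * B ^ (G + ε / 4) := mul_le_mul_of_nonneg_left h5 hKF.le
    linarith
  calc n ≤ KC * B ^ (e1 * 3) * (k + B ^ (3 / 2 + σ / 2)) := hn
    _ ≤ KC * B ^ (e1 * 3) * ((KF + 1) * B ^ (G + ε / 4)) :=
        mul_le_mul_of_nonneg_left h6 (by positivity)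
    _ = KC * (KF + 1) * (B ^ (e1 * 3) * B ^ (G + ε / 4)) := by ring
    _ = KC * (KF + 1) * B ^ (e1 * 3 + (G + ε / 4)) := by rw [Real.rpow_add hBpos (e1 * 3)]
    _ ≤ KC * (KF + 1) * B ^ (G + ε) :=
        mul_le_mul_of_nonneg_left (Real.rpow_le_rpow_of_exponent_le hB1 h1) (by positivity)

/-- the three kinds of points -/
theorem kinds (hD : S_DIV) (hP : S_SPL) (d : ℕ) (c : ℕ → ℤ) (hd : 3 ≤ d) (m : ℕ) (hm : 2 ≤ m)
    (S0 S : Finset ℕ) (hS0 : S0 ⊆ S) (hSgood : ∀ p : ℕ, p.Prime → p ∉ S → Gd d c p)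
    (X Y R Z : ℝ) (hY1 : 1 ≤ Y) (hR1 : 1 ≤ R) (hZ1 : 1 < Z) (hZ2m : X < Z ^ (2 * m + 1))
    (hZt : ∀ t : ℕ, Z ^ t ≤ X → t ≤ d) (B : ℝ) (x : ℤ × ℤ) (hx : x ∈ Pts d c m S0 B)
    (hxX : |(fm d c x : ℝ)| ≤ X) :
    (∃ s A : ℕ, (0 < s ∧ (s : ℝ) ≤ X ∧ ∀ p : ℕ, p.Prime → p ∣ s → p ∈ S) ∧
      (MF m A ∧ (A : ℝ) ≤ Y) ∧ ∃ k : ℤ, (k = ((s * A : ℕ) : ℤ) ∨ k = -((s * A : ℕ) : ℤ)) ∧
        ∃ t : ℕ, t.Prime ∧ t ≤ d ∧ ∃ y : ℤ, fm d c x = k * y ^ t) ∨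
    (∃ p : ℕ, p.Prime ∧ p ∉ S ∧ (p : ℝ) ≤ Z ∧ R < ((p ^ m : ℕ) : ℝ) ∧
      ((p ^ m : ℕ) : ℤ) ∣ fm d c x) ∨
    (∃ D : ℕ, MF m D ∧ (∀ p : ℕ, p.Prime → p ∣ D → Gd d c p) ∧ Y < (D : ℝ) ∧ (D : ℝ) ≤ Y * R ∧
      (D : ℤ) ∣ fm d c x) := by
  obtain ⟨hxc, hxB, hx0, hxf⟩ := hx
  obtain ⟨N, hNdef⟩ : ∃ N : ℕ, N = (fm d c x).natAbs := ⟨_, rfl⟩
  have hN0 : 0 < N := by rw [hNdef]; exact Int.natAbs_pos.2 hx0
  have hNX : (N : ℝ) ≤ X := by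
    rw [hNdef, Nat.cast_natAbs, Int.cast_abs]
    exact hxX
  have hfull : ∀ p : ℕ, p.Prime → p ∉ S → p ∣ N → p ^ m ∣ N := by
    intro p hp hpS hpN
    have h1 : p ∉ S0 := fun h => hpS (hS0 h)
    have h2 : (p : ℤ) ∣ fm d c x := by
      rw [hNdef] at hpN
      exact Int.natCast_dvd.2 hpN
    have h3 := hxf p hp h1 h2
    rw [hNdef]
    have h4 : ((p ^ m : ℕ) : ℤ) ∣ fm d c x := by exact_mod_cast h3
    exact Int.natCast_dvd.1 h4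
  obtain ⟨s, A, L, hN, hs, hA, hAp, hcase⟩ := hP m S Z N hm hZ1 hN0 hfull
  have hs0 : 0 < s := Nat.pos_of_ne_zero fun h => by
    rw [h, zero_mul, zero_mul] at hN
    omega
  have hAdvd : (A : ℤ) ∣ fm d c x := by
    apply Int.natCast_dvd.2
    rw [← hNdef, hN]
    exact Dvd.dvd.mul_right (Dvd.intro_left s rfl) L
  rcases hcase with ⟨t, y, ht, hLy, htZ⟩ | hcase
  · have htd : t ≤ d := by
      rcases htZ with rfl | htZ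
      · omega
      · exact hZt t (htZ.trans hNX)
    rcases le_or_gt (A : ℝ) Y with hAY | hAY
    · left
      refine ⟨s, A, ⟨hs0, ?_, hs⟩, ⟨hA, hAY⟩, ?_⟩
      · have h1 : s ≤ N := Nat.le_of_dvd hN0 (by rw [hN, mul_assoc]; exact Dvd.intro _ rfl)
        exact (Nat.cast_le.2 h1).trans hNX
      · rcases Int.natAbs_eq (fm d c x) with h | h
        · refine ⟨((s * A : ℕ) : ℤ), Or.inl rfl, t, ht, htd, (y : ℤ), ?_⟩
          rw [h, ← hNdef, hN, hLy]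
          push_cast
          ring
        · refine ⟨-((s * A : ℕ) : ℤ), Or.inr rfl, t, ht, htd, (y : ℤ), ?_⟩
          rw [h, ← hNdef, hN, hLy]
          push_cast
          ring
    · right
      by_cases hex : ∃ p : ℕ, p.Prime ∧ p ∣ A ∧ R < ((p ^ m : ℕ) : ℝ)
      · left
        obtain ⟨p, hp, hpA, hpR⟩ := hex
        obtain ⟨hpS, hpZ⟩ := hAp p hp hpA
        exact ⟨p, hp, hpS, hpZ, hpR, (Int.natCast_dvd_natCast.2 (hA.2 p hp hpA)).trans hAdvd⟩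
      · right
        push Not at hex
        obtain ⟨D, hDA, hDF, hDY, hDR⟩ := hD m A (by omega) hA Y R hY1 hR1
          (fun p hp hpA => by exact_mod_cast hex p hp hpA) hAY
        exact ⟨D, hDF, fun p hp hpD => hSgood p hp (hAp p hp (hpD.trans hDA)).1, hDY, hDR,
          (Int.natCast_dvd_natCast.2 hDA).trans hAdvd⟩
  · exfalso
    linarith

/-- **the theorem** -/
theorem asm (hB : S_BAD) (hTB : S_TB) (hWB : S_WB) (hF : S_FUL) (hD : S_DIV) (hS : S_SUN)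
    (hP : S_SPL) : S_MAIN := by
  classical
  intro d c hd hR m hm hdm S0 ε0 hε0
  obtain ⟨D0, hD0, hgood⟩ := hB d c (by omega) hR
  obtain ⟨S, hSdef⟩ : ∃ S : Finset ℕ, S = S0 ∪ D0.primeFactors := ⟨_, rfl⟩
  have hS0S : S0 ⊆ S := by rw [hSdef]; exact subset_union_left
  have hSgood : ∀ p : ℕ, p.Prime → p ∉ S → Gd d c p := by
    intro p hp hpS
    refine hgood p hp fun hdvd => hpS ?_
    rw [hSdef, mem_union]
    exact Or.inr (Nat.mem_primeFactors.2 ⟨hp, hdvd, hD0.ne'⟩)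
  obtain ⟨ε, hεdef⟩ : ∃ ε : ℝ, ε = min ε0 1 := ⟨_, rfl⟩
  have hε : 0 < ε := by rw [hεdef]; exact lt_min hε0 one_pos
  have hε1 : ε ≤ 1 := by rw [hεdef]; exact min_le_right _ _
  have hεε0 : ε ≤ ε0 := by rw [hεdef]; exact min_le_left _ _
  obtain ⟨G, hG⟩ : ∃ G : ℝ, G = max (3 / 2 + 1 / (2 * (m : ℝ))) (d / (2 * (m : ℝ) + 1)) := ⟨_, rfl⟩
  rw [← hG]
  obtain ⟨e1, σ, θ, he1, hσ, hσ1, hθ1, hG0, g1, g2, g3, g4, g5, g6, g7, g8, g9⟩ :=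
    exps m d hm hd hdm ε hε hε1 G hG
  obtain ⟨CF, hCFdef⟩ : ∃ CF : ℝ, CF = cF d c + 1 := ⟨_, rfl⟩
  have hCF1 : 1 ≤ CF := by
    have := cF_nonneg d c
    linarith
  obtain ⟨M, hMd, hMC⟩ : ∃ M : ℕ, d + 1 ≤ M ∧ CF ≤ M :=
    ⟨max (d + 1) ⌈CF⌉₊, le_max_left _ _, (Nat.le_ceil CF).trans (by exact_mod_cast le_max_right _ _)⟩
  -- the constants
  obtain ⟨KW, hKW, hW⟩ := cover1 hWB d c hd hR M e1 he1
  obtain ⟨KC, hKC, hC⟩ := cover hTB hF d c (by omega) m (by omega) σ e1 hσ hσ1 he1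
  obtain ⟨KF, hKF, hFc⟩ := full_count hF m σ (by omega) hσ
  obtain ⟨KS, hKS, hSc⟩ := hS S e1 he1
  -- small B
  obtain ⟨B0, hB01, hB0⟩ : ∃ B0 : ℝ, 1 ≤ B0 ∧ ∀ B : ℝ, B0 < B → CF < B ^ (ε / 4) := by
    refine ⟨max 1 (CF ^ (4 / ε)), le_max_left _ _, fun B hBB => ?_⟩
    have h2 : CF ^ (4 / ε) < B := (le_max_right _ _).trans_lt hBB
    have h3 : CF = (CF ^ (4 / ε)) ^ (ε / 4) := by
      rw [← Real.rpow_mul (by linarith)]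
      rw [show 4 / ε * (ε / 4) = 1 by field_simp, Real.rpow_one]
    calc CF = (CF ^ (4 / ε)) ^ (ε / 4) := h3
      _ < B ^ (ε / 4) := Real.rpow_lt_rpow (by positivity) h2 (by positivity)
  obtain ⟨K1, hK1def⟩ : ∃ K1 : ℝ, K1 = KW * (2 * (KS * CF ^ e1 * KF)) := ⟨_, rfl⟩
  obtain ⟨K2, hK2def⟩ : ∃ K2 : ℝ, K2 = KC * 3 := ⟨_, rfl⟩
  obtain ⟨K3, hK3def⟩ : ∃ K3 : ℝ, K3 = KC * (KF + 1) := ⟨_, rfl⟩
  have hK1 : 0 < K1 := by rw [hK1def]; positivity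
  have hK2 : 0 < K2 := by rw [hK2def]; positivity
  have hK3 : 0 < K3 := by rw [hK3def]; positivity
  refine ⟨9 * B0 ^ 2 + K1 + K2 + K3, by positivity, fun B hB1 => ?_⟩
  have hfin : (Pts d c m S0 B).Finite := (box B hB1).1.subset fun x hx => hx.2.1
  refine ⟨hfin, ?_⟩
  rw [Set.ncard_eq_toFinset_card _ hfin]
  obtain ⟨E, hEdef⟩ : ∃ E : Finset (ℤ × ℤ), E = hfin.toFinset := ⟨_, rfl⟩
  rw [← hEdef]
  have hE : ∀ x ∈ E, x ∈ Pts d c m S0 B := fun x hx => by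
    rw [hEdef] at hx
    exact hfin.mem_toFinset.1 hx
  clear hEdef
  have hBpos : 0 < B := by linarith
  have hexp : B ^ (G + ε) ≤ B ^ (G + ε0) := Real.rpow_le_rpow_of_exponent_le hB1 (by linarith)
  have hBp : 1 ≤ B ^ (G + ε) := Real.one_le_rpow hB1 (by linarith)
  have hB0p : 0 ≤ 9 * B0 ^ 2 := by positivity
  suffices hgoal : (E.card : ℝ) ≤ (9 * B0 ^ 2 + K1 + K2 + K3) * B ^ (G + ε) from
    hgoal.trans (mul_le_mul_of_nonneg_left hexp (by positivity))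
  rcases le_or_gt B B0 with hsmall | hbig
  · -- small B
    have h1 := (box B hB1).2 E fun x hx => (hE x hx).2.1
    have h2 : 9 * B ^ 2 ≤ 9 * B0 ^ 2 := by gcongr
    calc (E.card : ℝ) ≤ 9 * B0 ^ 2 := h1.trans h2
      _ ≤ (9 * B0 ^ 2 + K1 + K2 + K3) * 1 := by linarith
      _ ≤ (9 * B0 ^ 2 + K1 + K2 + K3) * B ^ (G + ε) :=
          mul_le_mul_of_nonneg_left hBp (by positivity)
  have hBC := hB0 B hbig
  have hB1' : 1 < B := by linarith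
  obtain ⟨Y, hY⟩ : ∃ Y : ℝ, Y = B ^ ((1 : ℝ) / 2) := ⟨_, rfl⟩
  obtain ⟨R, hRR⟩ : ∃ R : ℝ, R = B ^ ((3 : ℝ) / 2) := ⟨_, rfl⟩
  obtain ⟨Z, hZ⟩ : ∃ Z : ℝ, Z = B ^ θ := ⟨_, rfl⟩
  obtain ⟨X, hX⟩ : ∃ X : ℝ, X = CF * B ^ d := ⟨_, rfl⟩
  have hY1 : 1 ≤ Y := by rw [hY]; exact Real.one_le_rpow hB1 (by norm_num)
  have hR1 : 1 ≤ R := by rw [hRR]; exact Real.one_le_rpow hB1 (by norm_num)
  have hZ1 : 1 < Z := by rw [hZ]; exact Real.one_lt_rpow hB1' (by linarith)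
  have hYR : Y * R = B ^ 2 := by
    rw [hY, hRR, ← Real.rpow_add hBpos]
    norm_num
  have hBd : 1 ≤ B ^ d := one_le_pow₀ hB1
  have hX1 : 1 ≤ X := by
    rw [hX]
    exact one_le_mul_of_one_le_of_one_le hCF1 hBd
  -- large powers of Z
  have hZpow : ∀ k : ℕ, (d : ℝ) + ε / 4 ≤ θ * k → X < Z ^ k := by
    intro k hk
    have h1 : Z ^ k = B ^ (θ * k) := by
      rw [hZ, ← Real.rpow_natCast, ← Real.rpow_mul hBpos.le]
    have h2 : B ^ ((d : ℝ) + ε / 4) ≤ Z ^ k := by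
      rw [h1]
      exact Real.rpow_le_rpow_of_exponent_le hB1 hk
    refine lt_of_lt_of_le ?_ h2
    rw [Real.rpow_add hBpos, Real.rpow_natCast, hX, mul_comm]
    exact mul_lt_mul_of_pos_left hBC (by positivity)
  have hZ2m : X < Z ^ (2 * m + 1) := by
    apply hZpow
    push_cast
    exact g1
  have hZt : ∀ t : ℕ, Z ^ t ≤ X → t ≤ d := by
    intro t ht
    by_contra hcon
    push Not at hcon
    have h1 : (d : ℝ) + 1 ≤ t := by exact_mod_cast hcon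
    have h2 : θ * ((d : ℝ) + 1) ≤ θ * t := mul_le_mul_of_nonneg_left h1 (by linarith)
    have := hZpow t (g2.trans h2)
    linarith
  -- the finite sets
  obtain ⟨Ss, hSs⟩ : ∃ Ss : Finset ℕ, ∀ n, n ∈ Ss ↔ (0 < n ∧ (n : ℝ) ≤ X ∧
      ∀ p : ℕ, p.Prime → p ∣ n → p ∈ S) := by
    refine ⟨(range (⌊X⌋₊ + 1)).filter fun n => 0 < n ∧ (n : ℝ) ≤ X ∧
      ∀ p : ℕ, p.Prime → p ∣ n → p ∈ S, fun n => ?_⟩
    rw [mem_filter, mem_range, and_iff_right_iff_imp]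
    intro h
    have := Nat.le_floor h.2.1
    omega
  obtain ⟨As, hAs⟩ : ∃ As : Finset ℕ, ∀ n, n ∈ As ↔ (MF m n ∧ (n : ℝ) ≤ Y) := by
    refine ⟨(range (⌊Y⌋₊ + 1)).filter fun n => MF m n ∧ (n : ℝ) ≤ Y, fun n => ?_⟩
    rw [mem_filter, mem_range, and_iff_right_iff_imp]
    intro h
    have := Nat.le_floor h.2
    omega
  have hSscard : (Ss.card : ℝ) ≤ KS * X ^ e1 := hSc X hX1 Ss fun n hn => (hSs n).1 hn
  have hAscard : (As.card : ℝ) ≤ KF * Y ^ σ :=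
    (hFc As fun n hn => ((hAs n).1 hn).1).1 Y (by linarith) fun n hn => ((hAs n).1 hn).2
  obtain ⟨Ks, hKs⟩ : ∃ Ks : Finset ℤ, Ks = ((Ss ×ˢ As).image fun q => ((q.1 * q.2 : ℕ) : ℤ)) ∪
    ((Ss ×ˢ As).image fun q => -((q.1 * q.2 : ℕ) : ℤ)) := ⟨_, rfl⟩
  have hKscard : (Ks.card : ℝ) ≤ 2 * ((Ss.card : ℝ) * As.card) := by
    have h1 : Ks.card ≤ (Ss ×ˢ As).card + (Ss ×ˢ As).card := by
      rw [hKs]
      exact (card_union_le _ _).trans (add_le_add card_image_le card_image_le)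
    rw [card_product] at h1
    have h2 : (Ks.card : ℝ) ≤ (Ss.card : ℝ) * As.card + (Ss.card : ℝ) * As.card := by
      exact_mod_cast h1
    linarith
  have hXY : X * Y ≤ M * B ^ M := by
    have h1 : Y ≤ B := by
      rw [hY]
      calc B ^ ((1 : ℝ) / 2) ≤ B ^ (1 : ℝ) := Real.rpow_le_rpow_of_exponent_le hB1 (by norm_num)
        _ = B := Real.rpow_one B
    calc X * Y ≤ X * B := mul_le_mul_of_nonneg_left h1 (by linarith)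
      _ = CF * B ^ (d + 1) := by rw [hX]; ring
      _ ≤ M * B ^ M := by
          have h2 : B ^ (d + 1) ≤ B ^ M := pow_le_pow_right₀ hB1 hMd
          gcongr
  have hKsprop : ∀ k ∈ Ks, k ≠ 0 ∧ |(k : ℝ)| ≤ M * B ^ M := by
    intro k hk
    have hq : ∀ s A : ℕ, s ∈ Ss → A ∈ As → 0 < s * A ∧ ((s * A : ℕ) : ℝ) ≤ M * B ^ M := by
      intro s A hs hA
      have h1 := (hSs s).1 hs
      have h2 := (hAs A).1 hA
      refine ⟨Nat.mul_pos h1.1 h2.1.1, ?_⟩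
      push_cast
      exact (mul_le_mul h1.2.1 h2.2 (Nat.cast_nonneg _) (by linarith)).trans hXY
    rw [hKs, mem_union, mem_image, mem_image] at hk
    rcases hk with ⟨q, hq1, rfl⟩ | ⟨q, hq1, rfl⟩
    · rw [mem_product] at hq1
      obtain ⟨h1, h2⟩ := hq q.1 q.2 hq1.1 hq1.2
      refine ⟨by exact_mod_cast h1.ne', ?_⟩
      rw [Int.cast_natCast, abs_of_nonneg (Nat.cast_nonneg _)]
      exact h2
    · rw [mem_product] at hq1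
      obtain ⟨h1, h2⟩ := hq q.1 q.2 hq1.1 hq1.2
      refine ⟨by rw [neg_ne_zero]; exact_mod_cast h1.ne', ?_⟩
      rw [Int.cast_neg, abs_neg, Int.cast_natCast, abs_of_nonneg (Nat.cast_nonneg _)]
      exact h2
  obtain ⟨D2, hD2⟩ : ∃ D2 : Finset ℕ, D2 = ((range (⌊Z⌋₊ + 1)).filter fun p => p.Prime ∧ p ∉ S ∧
    R < ((p ^ m : ℕ) : ℝ)).image fun p => p ^ m := ⟨_, rfl⟩
  have hD2p : ∀ D ∈ D2, MF m D ∧ (∀ p : ℕ, p.Prime → p ∣ D → Gd d c p) ∧ R ≤ (D : ℝ) ∧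
      (D : ℝ) ≤ Z ^ m := by
    intro D hDm
    rw [hD2, mem_image] at hDm
    obtain ⟨p, hp, rfl⟩ := hDm
    rw [mem_filter, mem_range] at hp
    obtain ⟨hpZ, hpp, hpS, hpR⟩ := hp
    have h2 : ∀ p' : ℕ, p'.Prime → p' ∣ p ^ m → p' = p := fun p' h3 h4 =>
      (Nat.prime_dvd_prime_iff_eq h3 hpp).1 (h3.dvd_of_dvd_pow h4)
    refine ⟨⟨pow_pos hpp.pos m, fun p' h3 h4 => by rw [h2 p' h3 h4]⟩, fun p' h3 h4 => ?_, hpR.le, ?_⟩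
    · rw [h2 p' h3 h4]
      exact hSgood p hpp hpS
    · push_cast
      have h5 : p ≤ ⌊Z⌋₊ := by omega
      have h6 : (p : ℝ) ≤ Z := (Nat.cast_le.2 h5).trans (Nat.floor_le (by linarith))
      exact pow_le_pow_left₀ (Nat.cast_nonneg _) h6 m
  have hD2card : (D2.card : ℝ) ≤ 2 * Z := by
    have h1 : D2.card ≤ ⌊Z⌋₊ + 1 := by
      rw [hD2]
      refine card_image_le.trans ((card_filter_le _ _).trans ?_)
      rw [card_range]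
    have h2 : (D2.card : ℝ) ≤ (⌊Z⌋₊ : ℝ) + 1 := by exact_mod_cast h1
    have h3 := Nat.floor_le (by linarith : 0 ≤ Z)
    linarith
  obtain ⟨D3, hD3⟩ : ∃ D3 : Finset ℕ, ∀ D, D ∈ D3 ↔ (MF m D ∧
    (∀ p : ℕ, p.Prime → p ∣ D → Gd d c p) ∧ Y < (D : ℝ) ∧ (D : ℝ) ≤ Y * R) := by
    refine ⟨(range (⌊Y * R⌋₊ + 1)).filter fun D => MF m D ∧
      (∀ p : ℕ, p.Prime → p ∣ D → Gd d c p) ∧ Y < (D : ℝ) ∧ (D : ℝ) ≤ Y * R, fun D => ?_⟩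
    rw [mem_filter, mem_range, and_iff_right_iff_imp]
    intro h
    have := Nat.le_floor h.2.2.2
    omega
  have hD3p : ∀ D ∈ D3, MF m D ∧ (∀ p : ℕ, p.Prime → p ∣ D → Gd d c p) ∧ Y ≤ (D : ℝ) ∧
      (D : ℝ) ≤ B ^ 2 := by
    intro D hDm
    have h := (hD3 D).1 hDm
    exact ⟨h.1, h.2.1, h.2.2.1.le, by rw [← hYR]; exact h.2.2.2⟩
  have hD3card : (D3.card : ℝ) ≤ KF * (B ^ 2) ^ σ :=
    (hFc D3 fun n hn => (hD3p n hn).1).1 (B ^ 2) (by positivity) fun n hn => (hD3p n hn).2.2.2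
  -- the three parts
  obtain ⟨E1, hE1⟩ : ∃ E1 : Finset (ℤ × ℤ), E1 = E.filter fun x => ∃ k ∈ Ks, ∃ t : ℕ, t.Prime ∧
    t ≤ d ∧ ∃ y : ℤ, fm d c x = k * y ^ t := ⟨_, rfl⟩
  obtain ⟨E2, hE2⟩ : ∃ E2 : Finset (ℤ × ℤ), E2 = E.filter fun x => ∃ D ∈ D2, (D : ℤ) ∣ fm d c x :=
    ⟨_, rfl⟩
  obtain ⟨E3, hE3⟩ : ∃ E3 : Finset (ℤ × ℤ), E3 = E.filter fun x => ∃ D ∈ D3, (D : ℤ) ∣ fm d c x :=
    ⟨_, rfl⟩
  have hcov : E ⊆ (E1 ∪ E2) ∪ E3 := by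
    intro x hx
    have hxX : |(fm d c x : ℝ)| ≤ X := by
      refine (fm_le d c x (hE x hx).2.1).trans ?_
      rw [hX]
      have : cF d c ≤ CF := by rw [hCFdef]; linarith
      gcongr
    rw [mem_union, mem_union]
    rcases kinds hD hP d c hd m hm S0 S hS0S hSgood X Y R Z hY1 hR1 hZ1 hZ2m hZt B x (hE x hx) hxX
      with ⟨s, A, hs, hA, k, hk, t, ht, htd, y, hy⟩ | ⟨p, hp, hpS, hpZ, hpR, hdvd⟩ |
        ⟨D, h1, h2, h3, h4, h5⟩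
    · left; left
      rw [hE1, mem_filter]
      refine ⟨hx, k, ?_, t, ht, htd, y, hy⟩
      have hmem : (s, A) ∈ Ss ×ˢ As := mem_product.2 ⟨(hSs s).2 hs, (hAs A).2 hA⟩
      rw [hKs, mem_union, mem_image, mem_image]
      rcases hk with rfl | rfl
      · exact Or.inl ⟨(s, A), hmem, rfl⟩
      · exact Or.inr ⟨(s, A), hmem, rfl⟩
    · left; right
      rw [hE2, mem_filter]
      refine ⟨hx, p ^ m, ?_, hdvd⟩
      rw [hD2, mem_image]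
      refine ⟨p, ?_, rfl⟩
      rw [mem_filter, mem_range]
      have h3 := Nat.le_floor hpZ
      exact ⟨by omega, hp, hpS, hpR⟩
    · right
      rw [hE3, mem_filter]
      exact ⟨hx, D, (hD3 D).2 ⟨h1, h2, h3, h4⟩, h5⟩
  have hcard : (E.card : ℝ) ≤ E1.card + E2.card + E3.card := by
    have h1 : E.card ≤ (E1.card + E2.card) + E3.card :=
      (card_le_card hcov).trans ((card_union_le _ _).trans
        (add_le_add (card_union_le _ _) le_rfl))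
    exact_mod_cast h1
  have hb1 : (E1.card : ℝ) ≤ K1 * B ^ (G + ε) := by
    have h1 := hW B hB1 Ks hKsprop E1 fun x hx => by
      rw [hE1, mem_filter] at hx
      exact ⟨(hE x hx.1).1, (hE x hx.1).2.1, hx.2⟩
    rw [hK1def]
    exact part1 B KW KS KF CF e1 σ G ε hB1 hKW hKS hKF hCF1 d X Y hX hY _ _ _ _ hKscard
      (Nat.cast_nonneg _) hSscard (Nat.cast_nonneg _) hAscard h1 g3
  have hb2 : (E2.card : ℝ) ≤ K2 * B ^ (G + ε) := by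
    have h1 := hC B R (Z ^ m) hB1 (by linarith) (one_le_pow₀ hZ1.le) D2 hD2p E2 fun x hx => by
      rw [hE2, mem_filter] at hx
      exact ⟨(hE x hx.1).1, (hE x hx.1).2.1, hx.2⟩
    rw [hK2def]
    exact part2 B KC e1 σ θ G ε hB1 hKC m Z R hZ hRR _ _ hD2card (Nat.cast_nonneg _) h1 g4 g5 g6
  have hb3 : (E3.card : ℝ) ≤ K3 * B ^ (G + ε) := by
    have h1 := hC B Y (B ^ 2) hB1 (by linarith) (one_le_pow₀ hB1) D3 hD3p E3 fun x hx => by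
      rw [hE3, mem_filter] at hx
      exact ⟨(hE x hx.1).1, (hE x hx.1).2.1, hx.2⟩
    rw [hK3def]
    exact part3 B KC KF e1 σ G ε hB1 hKC hKF Y hY _ _ hD3card (Nat.cast_nonneg _) h1 g7 g8 g9
  have h9 : 0 ≤ 9 * B0 ^ 2 * B ^ (G + ε) := by positivity
  calc (E.card : ℝ) ≤ E1.card + E2.card + E3.card := hcard
    _ ≤ K1 * B ^ (G + ε) + K2 * B ^ (G + ε) + K3 * B ^ (G + ε) := by linarith
    _ ≤ 9 * B0 ^ 2 * B ^ (G + ε) + (K1 * B ^ (G + ε) + K2 * B ^ (G + ε) + K3 * B ^ (G + ε)) := by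
        linarith
    _ = (9 * B0 ^ 2 + K1 + K2 + K3) * B ^ (G + ε) := by ring

end Pool.Agent.L0h46.CV
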