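import Pool.Agent.L0h46.CV.Stm

/-!
Project CV, module BAD: all but finitely many primes are good.
-/

set_option autoImplicit false

namespace Pool.Agent.L0h46.CV

open Finset Polynomial

namespace BADm

/-- clearing the denominators -/
theorem clear (p : ℚ[X]) : ∃ (D : ℤ) (P : ℤ[X]), D ≠ 0 ∧
    P.map (Int.castRingHom ℚ) = C (D : ℚ) * p := by
  obtain ⟨b, hb, hp⟩ := IsLocalization.integerNormalization_spec (nonZeroDivisors ℤ) p
  refine ⟨b, IsLocalization.integerNormalization (nonZeroDivisors ℤ) p,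
    nonZeroDivisors.ne_zero hb, ?_⟩
  have h1 : (algebraMap ℤ ℚ) = Int.castRingHom ℚ := rfl
  rw [← h1, hp, ← smul_eq_C_mul]
  ext i
  simp

end BADm

theorem bad : S_BAD := by
  intro d c hd hR
  obtain ⟨hsq, hc⟩ := hR
  have hsep : ((fp d c).map (Int.castRingHom ℚ)).Separable :=
    PerfectField.separable_iff_squarefree.2 hsq
  obtain ⟨a, b, hab⟩ := hsep
  obtain ⟨D1, P, hD1, hP⟩ := BADm.clear a
  obtain ⟨D2, Q, hD2, hQ⟩ := BADm.clear b
  have key : C D2 * P * fp d c + C D1 * Q * derivative (fp d c) = C (D1 * D2) := by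
    apply Polynomial.map_injective (Int.castRingHom ℚ) Int.cast_injective
    simp only [Polynomial.map_add, Polynomial.map_mul, Polynomial.map_C, ← derivative_map, hP, hQ]
    have h1 := congrArg (fun x => C (D1 : ℚ) * C (D2 : ℚ) * x) hab
    simp only [mul_one] at h1
    have e : (Int.castRingHom ℚ) (D1 * D2) = (D1 : ℚ) * (D2 : ℚ) := by simp
    rw [e, C_mul, ← h1]
    simp only [eq_intCast]
    ring
  have hgood : ∀ p : ℕ, p.Prime → ¬ (p : ℤ) ∣ D1 * D2 →
      Squarefree ((fp d c).map (Int.castRingHom (ZMod p))) := by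
    intro p hp hpD
    haveI : Fact p.Prime := ⟨hp⟩
    apply Polynomial.Separable.squarefree
    have h0 : ((D1 * D2 : ℤ) : ZMod p) ≠ 0 := by
      intro h
      exact hpD ((ZMod.intCast_zmod_eq_zero_iff_dvd _ _).1 h)
    have h1 := congrArg (Polynomial.map (Int.castRingHom (ZMod p))) key
    simp only [Polynomial.map_add, Polynomial.map_mul, Polynomial.map_C, ← derivative_map] at h1
    refine ⟨C ((((D1 * D2 : ℤ) : ZMod p))⁻¹) * (C (Int.castRingHom (ZMod p) D2) *
      P.map (Int.castRingHom (ZMod p))), C ((((D1 * D2 : ℤ) : ZMod p))⁻¹) *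
      (C (Int.castRingHom (ZMod p) D1) * Q.map (Int.castRingHom (ZMod p))), ?_⟩
    rw [eq_intCast (Int.castRingHom (ZMod p)) (D1 * D2)] at h1
    have h2 : C ((((D1 * D2 : ℤ) : ZMod p))⁻¹) * C (((D1 * D2 : ℤ) : ZMod p)) = 1 := by
      rw [← C_mul, inv_mul_cancel₀ h0, C_1]
    linear_combination (C ((((D1 * D2 : ℤ) : ZMod p))⁻¹)) * h1 + h2
  have hz : ∀ (p : ℕ) (x : ℤ), ¬ (p : ℤ) ∣ x → (x : ZMod p) ≠ 0 := by
    intro p x h h'
    exact h ((ZMod.intCast_zmod_eq_zero_iff_dvd _ _).1 h')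
  by_cases h0 : c d = 0
  · have h1 : c (d - 1) ≠ 0 := by
      rcases hc with hc | hc
      · exact absurd h0 hc
      · exact hc
    refine ⟨(D1 * D2 * c (d - 1)).natAbs, Int.natAbs_pos.2 (mul_ne_zero (mul_ne_zero hD1 hD2) h1),
      fun p hp hpD => ?_⟩
    rw [← Int.natCast_dvd] at hpD
    exact ⟨hp, hgood p hp fun h => hpD (h.mul_right _), Or.inr ⟨h0, hz _ _ fun h =>
      hpD (h.mul_left _)⟩⟩
  · refine ⟨(D1 * D2 * c d).natAbs, Int.natAbs_pos.2 (mul_ne_zero (mul_ne_zero hD1 hD2) h0),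
      fun p hp hpD => ?_⟩
    rw [← Int.natCast_dvd] at hpD
    exact ⟨hp, hgood p hp fun h => hpD (h.mul_right _), Or.inl (hz _ _ fun h =>
      hpD (h.mul_left _))⟩

end Pool.Agent.L0h46.CV
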