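import Pool.Agent.L0h46.CV.Stm
import Pool.Agent.H471R4.BW.CRD
import Pool.Agent.H471R4.BW.COR
import Pool.Agent.H471R4.BW.NV1
import Pool.Agent.H471R4.BW.NV0

/-!
# Module CLS: the residue classes in which a form represents `k` times a `t`-th power
-/

set_option autoImplicit false

namespace Pool.Agent.L0h46.CV

open Finset Polynomial

namespace CLSm

lemma coeff_fp (d : ℕ) (c : ℕ → ℤ) (i : ℕ) : (fp d c).coeff i = if i ≤ d then c i else 0 := by
  unfold fp
  rw [finsetSum_coeff]
  simp only [coeff_C_mul, coeff_X_pow]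
  by_cases h : i ≤ d
  · rw [if_pos h, Finset.sum_eq_single i]
    · simp
    · intro b _ hb
      rw [if_neg (Ne.symm hb), mul_zero]
    · intro h'
      exact absurd (Finset.mem_range.2 (by omega)) h'
  · rw [if_neg h]
    apply Finset.sum_eq_zero
    intro b hb
    rw [Finset.mem_range] at hb
    rw [if_neg (by omega), mul_zero]

lemma natDegree_map_le (d : ℕ) (c : ℕ → ℤ) {R : Type} [CommRing R] :
    ((fp d c).map (Int.castRingHom R)).natDegree ≤ d := by
  rw [natDegree_le_iff_coeff_eq_zero]
  intro N hN
  rw [coeff_map, coeff_fp, if_neg (by omega), map_zero]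

lemma eval_map (d : ℕ) (c : ℕ → ℤ) {R : Type} [CommRing R] (x : R) :
    ((fp d c).map (Int.castRingHom R)).eval x = ∑ i ∈ range (d + 1), (c i : R) * x ^ i := by
  unfold fp
  rw [Polynomial.map_sum, eval_finsetSum]
  simp

lemma sqf_equiv {F : Type} [Field F] (φ : F[X] ≃ₐ[F] F[X]) {f : F[X]} (hf : Squarefree f) :
    Squarefree (φ f) := by
  intro x hx
  have h1 : φ.symm x * φ.symm x ∣ f := by
    have := map_dvd φ.symm hx
    rwa [map_mul, AlgEquiv.symm_apply_apply] at this
  have h2 := (hf _ h1).map φ
  rwa [AlgEquiv.apply_symm_apply] at h2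

end CLSm

open CLSm in
theorem cls : S_CLS := by
  classical
  intro t d ht hd
  obtain ⟨K, hK0, hK⟩ := Pool.Agent.H471R4.BW.crd (Pool.Agent.H471R4.BW.cor
    (Pool.Agent.H471R4.BW.nv1 Pool.Agent.H471R4.BW.nv0)) t d ht
  refine ⟨K + d, by positivity, ?_⟩
  intro c p hp htp k b hk hb
  have hpp : p.Prime := hp.1
  have : Fact p.Prime := ⟨hpp⟩
  have hp0 : (0 : ℝ) ≤ p := Nat.cast_nonneg p
  have hp1 : (1 : ℝ) ≤ p := by exact_mod_cast hpp.one_lt.le
  have hsq : (1 : ℝ) ≤ Real.sqrt p := by
    rw [← Real.sqrt_one]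
    exact Real.sqrt_le_sqrt hp1
  by_cases hpd : p ≤ d
  · -- small primes
    have h1 : ({a : ZMod p | ∃ y : ZMod p, ∑ i ∈ range (d + 1), (c i : ZMod p) * a ^ i *
        b ^ (d - i) = k * y ^ t}.ncard : ℝ) ≤ d := by
      have h2 : {a : ZMod p | ∃ y : ZMod p, ∑ i ∈ range (d + 1), (c i : ZMod p) * a ^ i *
        b ^ (d - i) = k * y ^ t}.ncard ≤ p := by
        refine (Set.ncard_le_ncard (Set.subset_univ _) (Set.toFinite _)).trans ?_
        rw [Set.ncard_univ, Nat.card_eq_fintype_card, ZMod.card]
      exact_mod_cast h2.trans hpd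
    have h3 : (d : ℝ) ≤ (K + d) * Real.sqrt p := by
      have : (0 : ℝ) ≤ d := Nat.cast_nonneg d
      nlinarith
    have h4 : (0 : ℝ) ≤ p / t := by positivity
    linarith
  · rw [not_le] at hpd
    obtain ⟨Q, hQ⟩ := htp
    have hQ' : t * Q + 1 = p := by have := hpp.one_lt; omega
    set f : (ZMod p)[X] := (fp d c).map (Int.castRingHom (ZMod p)) with hf
    have hfsq : Squarefree f := hp.2.1
    have hdeg1 : 2 ≤ f.natDegree := by
      rcases hp.2.2 with h | ⟨_, h⟩
      · have h1 : d ≤ f.natDegree := by
          apply le_natDegree_of_ne_zero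
          rw [hf, coeff_map, coeff_fp, if_pos le_rfl]
          exact h
        omega
      · have h1 : d - 1 ≤ f.natDegree := by
          apply le_natDegree_of_ne_zero
          rw [hf, coeff_map, coeff_fp, if_pos (by omega)]
          exact h
        omega
    have hdeg2 : f.natDegree ≤ d := natDegree_map_le d c
    have hf0 : f ≠ 0 := hfsq.ne_zero
    -- a point which is not a root
    obtain ⟨z, hz⟩ : ∃ z : ZMod p, f.eval z ≠ 0 := by
      by_contra hcon
      push Not at hcon
      have h1 : (univ : Finset (ZMod p)) ⊆ f.roots.toFinset := by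
        intro x _
        rw [Multiset.mem_toFinset, mem_roots hf0]
        exact hcon x
      have h2 := Finset.card_le_card h1
      rw [Finset.card_univ, ZMod.card] at h2
      have h3 := (Multiset.toFinset_card_le f.roots).trans (card_roots' f)
      omega
    let _ : Invertible (b⁻¹) := invertibleOfNonzero (inv_ne_zero hb)
    let φ : (ZMod p)[X] ≃ₐ[ZMod p] (ZMod p)[X] := algEquivCMulXAddC b⁻¹ z
    have hφ : ∀ g : (ZMod p)[X], φ g = g.comp (C b⁻¹ * X + C z) := by
      intro g
      rfl
    let G : (ZMod p)[X] := C (b ^ d) * φ f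
    have hbd : b ^ d ≠ 0 := pow_ne_zero _ hb
    have hu : IsUnit (C (b ^ d) : (ZMod p)[X]) := isUnit_C.2 (isUnit_iff_ne_zero.2 hbd)
    have hGsq : Squarefree G := by
      intro x hx
      exact sqf_equiv φ hfsq x ((hu.dvd_mul_left).1 hx)
    have hlin : (C b⁻¹ * X + C z : (ZMod p)[X]).natDegree = 1 :=
      natDegree_linear (inv_ne_zero hb)
    have hGdeg : G.natDegree = f.natDegree := by
      show (C (b ^ d) * φ f).natDegree = _
      rw [natDegree_C_mul hbd, hφ, natDegree_comp, hlin, mul_one]
    have hGeval : ∀ x : ZMod p, G.eval x = b ^ d * f.eval (b⁻¹ * x + z) := by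
      intro x
      show (C (b ^ d) * φ f).eval x = _
      rw [eval_mul, eval_C, hφ, eval_comp]
      simp
    have hG0 : G.eval 0 ≠ 0 := by
      rw [hGeval, mul_zero, zero_add]
      exact mul_ne_zero hbd hz
    have hGn : ∀ (c : ZMod p) (h : (ZMod p)[X]), G ≠ C c * h ^ t := by
      intro c' h e
      have h1 : h * h ∣ G := by
        rw [e]
        have : h * h ∣ h ^ t := by
          rw [← pow_two]
          exact pow_dvd_pow _ ht.two_le
        exact this.mul_left _
      have h2 := natDegree_eq_zero_of_isUnit (hGsq h h1)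
      have h3 : G.natDegree ≤ 0 := by
        rw [e]
        refine (natDegree_C_mul_le _ _).trans ?_
        refine (natDegree_pow_le).trans ?_
        rw [h2, mul_zero]
      omega
    have key := hK (ZMod p) G (by omega) (by omega) hG0 hGn (k ^ Q) Q (by rw [ZMod.card]; exact hQ')
    rw [ZMod.card] at key
    have hcount : ({a : ZMod p | ∃ y : ZMod p, ∑ i ∈ range (d + 1), (c i : ZMod p) * a ^ i *
        b ^ (d - i) = k * y ^ t}.ncard : ℝ) ≤
        ((univ.filter fun x : ZMod p => G.eval x = 0 ∨ G.eval x ^ Q = k ^ Q).card : ℝ) := by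
      have hsum : ∀ a : ZMod p, ∑ i ∈ range (d + 1), (c i : ZMod p) * a ^ i * b ^ (d - i) =
          G.eval (a - b * z) := by
        intro a
        rw [hGeval]
        have e : b⁻¹ * (a - b * z) + z = b⁻¹ * a := by
          field_simp
          ring
        rw [e, hf, eval_map, Finset.mul_sum]
        apply Finset.sum_congr rfl
        intro i hi
        rw [Finset.mem_range] at hi
        have e2 : b ^ d = b ^ (d - i) * b ^ i := by rw [← pow_add]; congr 1; omega
        rw [e2, mul_pow]
        have e3 : b ^ i * (b⁻¹) ^ i = 1 := by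
          rw [← mul_pow, mul_inv_cancel₀ hb, one_pow]
        linear_combination (-(c i : ZMod p) * a ^ i * b ^ (d - i)) * e3
      suffices hle : {a : ZMod p | ∃ y : ZMod p, ∑ i ∈ range (d + 1), (c i : ZMod p) * a ^ i *
          b ^ (d - i) = k * y ^ t}.ncard ≤
          (univ.filter fun x : ZMod p => G.eval x = 0 ∨ G.eval x ^ Q = k ^ Q).card by
        exact_mod_cast hle
      rw [← Set.ncard_coe_finset]
      refine Set.ncard_le_ncard_of_injOn (fun a => a - b * z) ?_ ?_ (Set.toFinite _)
      · rintro a ⟨y, hy⟩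
        rw [Finset.mem_coe, Finset.mem_filter]
        refine ⟨Finset.mem_univ _, ?_⟩
        rw [hsum] at hy
        rw [hy]
        by_cases hy0 : y = 0
        · left
          rw [hy0, zero_pow ht.ne_zero, mul_zero]
        · right
          rw [mul_pow, ← pow_mul]
          have : y ^ (t * Q) = 1 := by
            have e : t * Q = p - 1 := by omega
            rw [e]
            exact ZMod.pow_card_sub_one_eq_one hy0
          rw [this, mul_one]
      · intro a _ a' _ h
        exact sub_left_injective h
    have key' : ((univ.filter fun x : ZMod p => G.eval x = 0 ∨ G.eval x ^ Q = k ^ Q).card : ℝ) ≤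
        p / t + K * Real.sqrt p := by
      convert key
    refine hcount.trans (key'.trans ?_)
    have : (0 : ℝ) ≤ d := Nat.cast_nonneg d
    nlinarith

end Pool.Agent.L0h46.CV
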