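import Pool.Agent.L0h46.CV.Stm

/-!
Project CV, module DIV: `m`-full divisors of suitable size.
-/

set_option autoImplicit false

namespace Pool.Agent.L0h46.CV

theorem div' : S_DIV := by
  classical
  intro m n hm hn Y R hY hR hp hYn
  have hex : ∃ D : ℕ, D ∣ n ∧ MF m D ∧ Y < D := ⟨n, dvd_rfl, hn, hYn⟩
  obtain ⟨hD1, hD2, hD3⟩ := Nat.find_spec hex
  have hmin : ∀ E : ℕ, E ∣ n → MF m E → E < Nat.find hex → (E : ℝ) ≤ Y := by
    intro E h1 h2 h3
    by_contra h4
    exact Nat.find_min hex h3 ⟨h1, h2, not_le.1 h4⟩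
  obtain ⟨D, hD⟩ : ∃ D, D = Nat.find hex := ⟨_, rfl⟩
  rw [← hD] at hD1 hD2 hD3 hmin
  refine ⟨D, hD1, hD2, hD3, ?_⟩
  have hDne : D ≠ 1 := by
    rintro h
    rw [h] at hD3
    norm_num at hD3
    linarith
  obtain ⟨p, hpp, hpD⟩ := Nat.exists_prime_and_dvd hDne
  have hpR := hp p hpp (hpD.trans hD1)
  have hpmD := hD2.2 p hpp hpD
  have hDpos := hD2.1
  have hY0 : 0 ≤ Y := by linarith
  have hp1 : (1 : ℝ) ≤ p := by exact_mod_cast hpp.one_lt.le
  by_cases h : p ^ (m + 1) ∣ D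
  · obtain ⟨E, hE⟩ := hpD
    have hE0 : 0 < E := by
      rcases Nat.eq_zero_or_pos E with h0 | h0
      · rw [h0, mul_zero] at hE; omega
      · exact h0
    have hmf : MF m E := by
      refine ⟨hE0, fun q hq hqE => ?_⟩
      by_cases hqp : q = p
      · rw [hqp]
        rw [hE, pow_succ, mul_comm] at h
        exact Nat.dvd_of_mul_dvd_mul_left hpp.pos h
      · have h1 := hD2.2 q hq (hE ▸ hqE.mul_left _)
        rw [hE] at h1
        exact (Nat.Coprime.pow_left m ((Nat.coprime_primes hq hpp).2 hqp)).dvd_of_dvd_mul_left h1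
    have hlt : E < D := by
      rw [hE]
      exact lt_mul_of_one_lt_left hE0 hpp.one_lt
    have h2 := hmin E ((Dvd.intro_left p hE.symm).trans hD1) hmf hlt
    have h3 : (D : ℝ) = p * E := by exact_mod_cast hE
    have h4 : (p : ℝ) ≤ (p : ℝ) ^ m := le_self_pow₀ hp1 (by omega)
    calc (D : ℝ) = p * E := h3
      _ ≤ (p : ℝ) ^ m * Y := mul_le_mul h4 h2 (Nat.cast_nonneg _) (by positivity)
      _ ≤ R * Y := mul_le_mul_of_nonneg_right hpR hY0
      _ = Y * R := mul_comm _ _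
  · obtain ⟨E, hE⟩ := hpmD
    have hE0 : 0 < E := by
      rcases Nat.eq_zero_or_pos E with h0 | h0
      · rw [h0, mul_zero] at hE; omega
      · exact h0
    have hmf : MF m E := by
      refine ⟨hE0, fun q hq hqE => ?_⟩
      by_cases hqp : q = p
      · exfalso
        apply h
        rw [hE, pow_succ]
        exact mul_dvd_mul_left _ (hqp ▸ hqE)
      · have h1 := hD2.2 q hq (hE ▸ hqE.mul_left _)
        rw [hE] at h1
        exact (Nat.Coprime.pow m m ((Nat.coprime_primes hq hpp).2 hqp)).dvd_of_dvd_mul_left h1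
    have hlt : E < D := by
      rw [hE]
      exact lt_mul_of_one_lt_left hE0 (Nat.one_lt_pow (by omega) hpp.one_lt)
    have h2 := hmin E ((Dvd.intro_left _ hE.symm).trans hD1) hmf hlt
    have h3 : (D : ℝ) = (p : ℝ) ^ m * E := by exact_mod_cast hE
    calc (D : ℝ) = (p : ℝ) ^ m * E := h3
      _ ≤ (p : ℝ) ^ m * Y := mul_le_mul_of_nonneg_left h2 (by positivity)
      _ ≤ R * Y := mul_le_mul_of_nonneg_right hpR hY0
      _ = Y * R := mul_comm _ _

theorem div_ : S_DIV := div'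

end Pool.Agent.L0h46.CV
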