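import Pool.Agent.L0h46.CV.Stm

/-!
# CV, module FUL: sums over `m`-full numbers
-/

set_option autoImplicit false

namespace Pool.Agent.L0h46.CV

open Finset

namespace FUL

/-- an integer `≥ m` is a combination of `m, m + 1, ..., 2 m - 1` -/
lemma exp_exists (m e : ℕ) (hm : 1 ≤ m) (he : m ≤ e) :
    ∃ x : Fin m → ℕ, ∑ j : Fin m, (m + (j : ℕ)) * x j = e := by
  have h0 : 0 < m := hm
  have hr : e % m < m := Nat.mod_lt _ h0
  have hq : 1 ≤ e / m := (Nat.one_le_div_iff h0).2 he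
  have hd := Nat.div_add_mod e m
  refine ⟨fun j => (if j = ⟨0, h0⟩ then e / m - 1 else 0) + (if j = ⟨e % m, hr⟩ then 1 else 0), ?_⟩
  simp only [mul_add, Finset.sum_add_distrib, mul_ite, mul_zero, mul_one, Finset.sum_ite_eq',
    Finset.mem_univ, if_true, add_zero]
  obtain ⟨k, hk⟩ : ∃ k, e / m = k + 1 := ⟨e / m - 1, by omega⟩
  rw [hk] at hd ⊢
  simp only [Nat.add_sub_cancel]
  calc m * k + (m + e % m) = m * (k + 1) + e % m := by ring
    _ = e := hd

lemma tuple_exists (m n : ℕ) (hm : 1 ≤ m) (h : MF m n) :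
    ∃ b : Fin m → ℕ, ∏ j : Fin m, b j ^ (m + (j : ℕ)) = n := by
  have h1 : ∀ p ∈ n.primeFactors, ∃ x : Fin m → ℕ,
      ∑ j : Fin m, (m + (j : ℕ)) * x j = n.factorization p := by
    intro p hp
    apply exp_exists m _ hm
    have hpp := Nat.prime_of_mem_primeFactors hp
    exact (hpp.pow_dvd_iff_le_factorization h.1.ne').1 (h.2 p hpp (Nat.dvd_of_mem_primeFactors hp))
  choose! x hx using h1
  refine ⟨fun j => ∏ p ∈ n.primeFactors, p ^ x p j, ?_⟩
  calc ∏ j : Fin m, (∏ p ∈ n.primeFactors, p ^ x p j) ^ (m + (j : ℕ))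
      = ∏ j : Fin m, ∏ p ∈ n.primeFactors, p ^ ((m + (j : ℕ)) * x p j) := by
        refine Finset.prod_congr rfl fun j _ => ?_
        rw [← Finset.prod_pow]
        refine Finset.prod_congr rfl fun p _ => ?_
        rw [← pow_mul, mul_comm]
    _ = ∏ p ∈ n.primeFactors, p ^ n.factorization p := by
        rw [Finset.prod_comm]
        refine Finset.prod_congr rfl fun p hp => ?_
        rw [Finset.prod_pow_eq_pow_sum, hx p hp]
    _ = n := Nat.prod_factorization_pow_eq_self h.1.ne'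

end FUL

theorem ful : S_FUL := by
  intro m σ hm hσ
  have hm0 : (0 : ℝ) < m := by exact_mod_cast hm
  have hσ1 : 1 < (m : ℝ) * σ := by
    rw [div_lt_iff₀ hm0] at hσ
    linarith
  have hσ0 : 0 < σ := lt_trans (by positivity) hσ
  set f : Fin m → ℕ → ℝ := fun j b => (b : ℝ) ^ (((m + (j : ℕ) : ℕ) : ℝ) * (-σ)) with hf
  have hf0 : ∀ j b, 0 ≤ f j b := fun j b => Real.rpow_nonneg (Nat.cast_nonneg b) _
  have hs : ∀ j : Fin m, Summable (f j) := by
    intro j
    apply Real.summable_nat_rpow.2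
    have h1 : (m : ℝ) ≤ ((m + (j : ℕ) : ℕ) : ℝ) := by push_cast; linarith [Nat.cast_nonneg (α := ℝ) (j : ℕ)]
    nlinarith
  refine ⟨∏ j, ∑' b, f j b + 1, by
    have : 0 ≤ ∏ j, ∑' b, f j b := Finset.prod_nonneg fun j _ => tsum_nonneg (hf0 j)
    linarith, ?_⟩
  intro E hE
  have h1 : ∀ n ∈ E, ∃ b : Fin m → ℕ, ∏ j : Fin m, b j ^ (m + (j : ℕ)) = n := fun n hn =>
    FUL.tuple_exists m n hm (hE n hn)
  choose! β hβ using h1
  have hinj : Set.InjOn β E := by
    intro a ha b hb hab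
    rw [← hβ a ha, hab, hβ b hb]
  set T : Finset (Fin m → ℕ) := E.image β with hT
  have h2 : ∑ n ∈ E, (n : ℝ) ^ (-σ) = ∑ t ∈ T, ∏ j, f j (t j) := by
    rw [hT, Finset.sum_image hinj]
    refine Finset.sum_congr rfl fun n hn => ?_
    have h3 : (n : ℝ) = ∏ j : Fin m, (β n j : ℝ) ^ (m + (j : ℕ)) := by
      have := congrArg (Nat.cast (R := ℝ)) (hβ n hn)
      push_cast at this
      exact this.symm
    rw [h3, ← Real.finset_prod_rpow _ _ (fun j _ => by positivity)]
    refine Finset.prod_congr rfl fun j _ => ?_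
    rw [hf]
    simp only
    rw [Real.rpow_natCast_mul (Nat.cast_nonneg _)]
  have h3 : T ⊆ Fintype.piFinset fun j => T.image fun t => t j := by
    intro t ht
    rw [Fintype.mem_piFinset]
    intro j
    exact Finset.mem_image_of_mem _ ht
  calc ∑ n ∈ E, (n : ℝ) ^ (-σ) = ∑ t ∈ T, ∏ j, f j (t j) := h2
    _ ≤ ∑ t ∈ Fintype.piFinset fun j => T.image fun t => t j, ∏ j, f j (t j) :=
        Finset.sum_le_sum_of_subset_of_nonneg h3 fun t _ _ =>
          Finset.prod_nonneg fun j _ => hf0 j _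
    _ = ∏ j, ∑ b ∈ T.image fun t => t j, f j b := (Finset.prod_univ_sum _ _).symm
    _ ≤ ∏ j, ∑' b, f j b := Finset.prod_le_prod (fun j _ => Finset.sum_nonneg fun b _ => hf0 j b)
        fun j _ => (hs j).sum_le_tsum _ fun b _ => hf0 j b
    _ ≤ ∏ j, ∑' b, f j b + 1 := by linarith

end Pool.Agent.L0h46.CV
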