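import Pool.Agent.L0h46.CV.Stm

/-!
Project CV, module SPL: splitting off the large primes.
-/

set_option autoImplicit false

namespace Pool.Agent.L0h46.CV

open Finset

namespace Spl

/-- the part of `N` composed of the primes in `T` -/
def part (N : ℕ) (T : Finset ℕ) : ℕ := ∏ p ∈ T, p ^ N.factorization p

theorem dvd_part {N : ℕ} {T : Finset ℕ} (hT : T ⊆ N.primeFactors) {q : ℕ} (hq : q.Prime)
    (h : q ∣ part N T) : q ∈ T := by
  obtain ⟨p, hp, hqp⟩ := (hq.prime.dvd_finsetProd_iff _).1 h
  have hpp : p.Prime := Nat.prime_of_mem_primeFactors (hT hp)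
  have := (Nat.prime_dvd_prime_iff_eq hq hpp).1 (hq.dvd_of_dvd_pow hqp)
  rwa [this]

theorem part_pos {N : ℕ} {T : Finset ℕ} (hT : T ⊆ N.primeFactors) : 0 < part N T := by
  apply Finset.prod_pos
  intro p hp
  exact pow_pos (Nat.prime_of_mem_primeFactors (hT hp)).pos _

end Spl

open Spl in
theorem spl : S_SPL := by
  classical
  intro m S Z N hm hZ hN hfull
  have hZ0 : (0 : ℝ) < Z := by linarith
  have hZ1 : (1 : ℝ) ≤ Z := hZ.le
  set F := N.primeFactors with hF
  have hprod : N = part N F := by
    have := Nat.prod_factorization_pow_eq_self hN.ne'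
    rw [Finsupp.prod, Nat.support_factorization] at this
    exact this.symm
  have hfac : ∀ p ∈ F, p ∉ S → m ≤ N.factorization p := by
    intro p hp hpS
    have hpp := Nat.prime_of_mem_primeFactors hp
    exact (hpp.pow_dvd_iff_le_factorization hN.ne').1
      (hfull p hpp hpS (Nat.dvd_of_mem_primeFactors hp))
  set T1 := F.filter (fun p => p ∈ S) with hT1
  set T2 := F.filter (fun p => p ∉ S ∧ (p : ℝ) ≤ Z) with hT2
  set T3 := F.filter (fun p => p ∉ S ∧ Z < (p : ℝ)) with hT3
  have s1 : T1 ⊆ F := Finset.filter_subset _ _
  have s2 : T2 ⊆ F := Finset.filter_subset _ _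
  have s3 : T3 ⊆ F := Finset.filter_subset _ _
  have hsplit : part N F = part N T1 * part N T2 * part N T3 := by
    unfold part
    have h1 : ∏ p ∈ F, p ^ N.factorization p =
        (∏ p ∈ T1, p ^ N.factorization p) *
          ∏ p ∈ F.filter (fun p => p ∉ S), p ^ N.factorization p :=
      (Finset.prod_filter_mul_prod_filter_not F (fun p => p ∈ S) _).symm
    have h2 : ∏ p ∈ F.filter (fun p => p ∉ S), p ^ N.factorization p =
        (∏ p ∈ T2, p ^ N.factorization p) * ∏ p ∈ T3, p ^ N.factorization p := by
      rw [← Finset.prod_filter_mul_prod_filter_not (F.filter (fun p => p ∉ S))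
        (fun p => (p : ℝ) ≤ Z)]
      rw [Finset.filter_filter, Finset.filter_filter]
      congr 1
      apply Finset.prod_congr _ (fun _ _ => rfl)
      ext p
      simp only [hT3, Finset.mem_filter, not_le]
    rw [h1, h2, mul_assoc]
  have hdvd : ∀ p, p ^ N.factorization p ∣ N := fun p => Nat.ordProj_dvd N p
  refine ⟨part N T1, part N T2, part N T3, hprod.trans hsplit, ?_, ?_, ?_, ?_⟩
  · intro p hp hd
    exact (Finset.mem_filter.1 (dvd_part s1 hp hd)).2
  · refine ⟨part_pos s2, fun p hp hd => ?_⟩
    have h1 := dvd_part s2 hp hd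
    have h2 := Finset.mem_filter.1 h1
    exact (pow_dvd_pow p (hfac p h2.1 h2.2.1)).trans
      (Finset.dvd_prod_of_mem (fun p => p ^ N.factorization p) h1)
  · intro p hp hd
    exact (Finset.mem_filter.1 (dvd_part s2 hp hd)).2
  · rcases T3.eq_empty_or_nonempty with h0 | ⟨p, hp⟩
    · left
      refine ⟨2, 1, Nat.prime_two, ?_, Or.inl rfl⟩
      rw [h0]
      simp [part]
    · have hp' := Finset.mem_filter.1 hp
      have hpp := Nat.prime_of_mem_primeFactors hp'.1
      have hem := hfac p hp'.1 hp'.2.1
      by_cases hall : ∀ q ∈ T3, N.factorization q = N.factorization p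
      · left
        have he1 : N.factorization p ≠ 1 := by omega
        have ht := Nat.minFac_prime he1
        obtain ⟨f, hf⟩ := Nat.minFac_dvd (N.factorization p)
        refine ⟨(N.factorization p).minFac, ∏ q ∈ T3, q ^ f, ht, ?_, Or.inr ?_⟩
        · unfold part
          rw [← Finset.prod_pow]
          refine Finset.prod_congr rfl fun q hq => ?_
          rw [hall q hq, ← pow_mul, mul_comm f, ← hf]
        · have hle : (N.factorization p).minFac ≤ N.factorization p :=
            Nat.minFac_le (by omega)
          calc Z ^ (N.factorization p).minFac ≤ Z ^ N.factorization p :=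
                pow_le_pow_right₀ hZ1 hle
            _ ≤ (p : ℝ) ^ N.factorization p := by
                gcongr
                exact hp'.2.2.le
            _ ≤ (N : ℝ) := by
                exact_mod_cast Nat.le_of_dvd hN (hdvd p)
      · right
        push Not at hall
        obtain ⟨q, hq, hne⟩ := hall
        have hq' := Finset.mem_filter.1 hq
        have hqp := Nat.prime_of_mem_primeFactors hq'.1
        have hem' := hfac q hq'.1 hq'.2.1
        have hpq : p ≠ q := by
          rintro rfl
          exact hne rfl
        have hcop : Nat.Coprime (p ^ N.factorization p) (q ^ N.factorization q) :=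
          Nat.Coprime.pow _ _ ((Nat.coprime_primes hpp hqp).2 hpq)
        have hd := hcop.mul_dvd_of_dvd_of_dvd (hdvd p) (hdvd q)
        have hle := Nat.le_of_dvd hN hd
        have hsum : 2 * m + 1 ≤ N.factorization p + N.factorization q := by omega
        calc Z ^ (2 * m + 1) ≤ Z ^ (N.factorization p + N.factorization q) :=
              pow_le_pow_right₀ hZ1 hsum
          _ = Z ^ N.factorization p * Z ^ N.factorization q := pow_add _ _ _
          _ ≤ (p : ℝ) ^ N.factorization p * (q : ℝ) ^ N.factorization q := by
              gcongr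
              · exact hp'.2.2.le
              · exact hq'.2.2.le
          _ ≤ (N : ℝ) := by exact_mod_cast hle

end Pool.Agent.L0h46.CV
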