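import Pool.Agent.L0h46.CV.Stm

/-!
Project CV, module SUN: the number of integers composed of the primes of `S`.
-/

set_option autoImplicit false

namespace Pool.Agent.L0h46.CV

namespace SUNm

/-- `n ↦ n ^ (-ε)` -/
noncomputable def fe (ε : ℝ) (hε : 0 < ε) : ℕ →* ℝ where
  toFun n := (n : ℝ) ^ (-ε)
  map_one' := by simp
  map_mul' a b := by
    rw [Nat.cast_mul, Real.mul_rpow (Nat.cast_nonneg _) (Nat.cast_nonneg _)]

end SUNm

theorem sun : S_SUN := by
  intro S ε hε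
  have h1 := EulerProduct.summable_and_hasSum_factoredNumbers_prod_filter_prime_geometric
    (f := SUNm.fe ε hε) (by
      intro p hp
      have h2 : (1 : ℝ) < p := by exact_mod_cast hp.one_lt
      show ‖(p : ℝ) ^ (-ε)‖ < 1
      rw [Real.norm_of_nonneg (Real.rpow_nonneg (by positivity) _)]
      exact Real.rpow_lt_one_of_one_lt_of_neg h2 (by linarith)) S
  obtain ⟨hs, -⟩ := h1
  obtain ⟨T, hT⟩ : ∃ T, T = ∑' x : Nat.factoredNumbers S, ‖SUNm.fe ε hε x‖ := ⟨_, rfl⟩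
  have hT0 : 0 ≤ T := by rw [hT]; exact tsum_nonneg fun _ => norm_nonneg _
  refine ⟨T + 1, by positivity, fun X hX E hE => ?_⟩
  have hmem : ∀ n ∈ E, n ∈ Nat.factoredNumbers S := by
    intro n hn
    obtain ⟨h1, -, h3⟩ := hE n hn
    refine ⟨h1.ne', fun p hp => ?_⟩
    rw [Nat.mem_primeFactorsList h1.ne'] at hp
    exact h3 p hp.1 hp.2
  have h2 : ∑ n ∈ E, (n : ℝ) ^ (-ε) ≤ T := by
    have h3 := hs.sum_le_tsum (E.subtype (· ∈ Nat.factoredNumbers S)) (fun _ _ => norm_nonneg _)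
    rw [← hT, Finset.sum_subtype_of_mem (fun n : ℕ => ‖SUNm.fe ε hε n‖) hmem] at h3
    refine le_trans (Finset.sum_le_sum fun n _ => ?_) h3
    exact le_abs_self _
  calc (E.card : ℝ) = ∑ n ∈ E, (1 : ℝ) := by simp
    _ ≤ ∑ n ∈ E, X ^ ε * (n : ℝ) ^ (-ε) := by
      refine Finset.sum_le_sum fun n hn => ?_
      obtain ⟨h1, h3, -⟩ := hE n hn
      have h0 : (0 : ℝ) < n := by exact_mod_cast h1
      have h4 : (n : ℝ) ^ ε ≤ X ^ ε := Real.rpow_le_rpow h0.le h3 hε.le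
      rw [Real.rpow_neg h0.le, ← div_eq_mul_inv, le_div_iff₀ (Real.rpow_pos_of_pos h0 _), one_mul]
      exact h4
    _ = X ^ ε * ∑ n ∈ E, (n : ℝ) ^ (-ε) := by rw [Finset.mul_sum]
    _ ≤ X ^ ε * T := mul_le_mul_of_nonneg_left h2 (Real.rpow_nonneg (by linarith) _)
    _ ≤ X ^ ε * (T + 1) := mul_le_mul_of_nonneg_left (by linarith)
        (Real.rpow_nonneg (by linarith) _)
    _ = (T + 1) * X ^ ε := mul_comm _ _

end Pool.Agent.L0h46.CV
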