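import Mathlib

/-!
Project CV (helper46), MP_464c42_nt: Campana points on the projective line, one component of large
degree.  `F(a, b)` is `m`-full for few coprime `a`, `b`.  Definitions and statements of the modules.
-/

set_option autoImplicit false

namespace Pool.Agent.L0h46.CV

open Finset Polynomial

/-- the height of an integral vector -/
def ht (x : ℤ × ℤ) : ℕ := max x.1.natAbs x.2.natAbs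

/-- the binary form of degree `d` with the coefficients `c` -/
def fm (d : ℕ) (c : ℕ → ℤ) (x : ℤ × ℤ) : ℤ :=
  ∑ i ∈ range (d + 1), c i * x.1 ^ i * x.2 ^ (d - i)

/-- the dehomogenised polynomial -/
noncomputable def fp (d : ℕ) (c : ℕ → ℤ) : ℤ[X] := ∑ i ∈ range (d + 1), C (c i) * X ^ i

/-- the form has no multiple factors -/
def Red (d : ℕ) (c : ℕ → ℤ) : Prop :=
  Squarefree ((fp d c).map (Int.castRingHom ℚ)) ∧ (c d ≠ 0 ∨ c (d - 1) ≠ 0)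

/-- `p` is a prime modulo which the form has no multiple factors -/
def Gd (d : ℕ) (c : ℕ → ℤ) (p : ℕ) : Prop := p.Prime ∧
  Squarefree ((fp d c).map (Int.castRingHom (ZMod p))) ∧
  ((c d : ZMod p) ≠ 0 ∨ (c d = 0 ∧ (c (d - 1) : ZMod p) ≠ 0))

/-- `m`-full numbers -/
def MF (m n : ℕ) : Prop := 0 < n ∧ ∀ p : ℕ, p.Prime → p ∣ n → p ^ m ∣ n

/-- BAD: all but finitely many primes are good. -/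
def S_BAD : Prop := ∀ (d : ℕ) (c : ℕ → ℤ), 1 ≤ d → Red d c →
  ∃ D0 : ℕ, 0 < D0 ∧ ∀ p : ℕ, p.Prime → ¬ p ∣ D0 → Gd d c p

/-- COL: the points at which `q` divides `F` fall into few classes, the determinant of two points of
one class is divisible by `q`. -/
def S_COL : Prop := ∀ (d : ℕ) (c : ℕ → ℤ), 1 ≤ d → ∀ q : ℕ, 0 < q →
  (∀ p : ℕ, p.Prime → p ∣ q → Gd d c p) → ∃ col : ℤ × ℤ → ℕ,
    (∀ x, IsCoprime x.1 x.2 → (q : ℤ) ∣ fm d c x → col x < (d + 1) ^ q.primeFactors.card) ∧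
    ∀ x y, IsCoprime x.1 x.2 → IsCoprime y.1 y.2 → (q : ℤ) ∣ fm d c x → (q : ℤ) ∣ fm d c y →
      col x = col y → (q : ℤ) ∣ x.1 * y.2 - x.2 * y.1

/-- TB: the number of points at which `q` divides `F`. -/
def S_TB : Prop := ∀ (d : ℕ) (c : ℕ → ℤ), 1 ≤ d → ∀ ε : ℝ, 0 < ε → ∃ K : ℝ, 0 < K ∧
  ∀ B : ℝ, 1 ≤ B → ∀ q : ℕ, 0 < q → (∀ p : ℕ, p.Prime → p ∣ q → Gd d c p) →
  ∀ E : Finset (ℤ × ℤ), (∀ x ∈ E, IsCoprime x.1 x.2 ∧ (ht x : ℝ) ≤ B ∧ (q : ℤ) ∣ fm d c x) →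
    (E.card : ℝ) ≤ K * (B * q) ^ ε * (1 + B ^ 2 / q)

/-- CLS: the residue classes in which a form represents `k` times a `t`-th power. -/
def S_CLS : Prop := ∀ t d : ℕ, t.Prime → 3 ≤ d → ∃ K : ℝ, 0 ≤ K ∧ ∀ (c : ℕ → ℤ) (p : ℕ),
  Gd d c p → t ∣ p - 1 → ∀ k b : ZMod p, k ≠ 0 → b ≠ 0 →
    ({a : ZMod p | ∃ y : ZMod p, ∑ i ∈ range (d + 1), (c i : ZMod p) * a ^ i * b ^ (d - i) =
      k * y ^ t}.ncard : ℝ) ≤ p / t + K * Real.sqrt p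

/-- WBA: values `k y ^ t` of the form, one coordinate fixed. -/
def S_WBA : Prop := ∀ (t d : ℕ) (c : ℕ → ℤ), t.Prime → 3 ≤ d → Red d c → ∀ (M : ℕ) (ε : ℝ),
  0 < ε → ∃ K : ℝ, 0 < K ∧ ∀ B : ℝ, 1 ≤ B → ∀ k b : ℤ, k ≠ 0 → |(k : ℝ)| ≤ M * B ^ M → b ≠ 0 →
    |(b : ℝ)| ≤ B → ∀ E : Finset ℤ, (∀ a ∈ E, |(a : ℝ)| ≤ B ∧ ∃ y : ℤ, fm d c (a, b) = k * y ^ t) →
      (E.card : ℝ) ≤ K * B ^ ((1 : ℝ) / 2 + ε)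

/-- WB: values `k y ^ t` of the form. -/
def S_WB : Prop := ∀ (t d : ℕ) (c : ℕ → ℤ), t.Prime → 3 ≤ d → Red d c → ∀ (M : ℕ) (ε : ℝ),
  0 < ε → ∃ K : ℝ, 0 < K ∧ ∀ B : ℝ, 1 ≤ B → ∀ k : ℤ, k ≠ 0 → |(k : ℝ)| ≤ M * B ^ M →
    ∀ E : Finset (ℤ × ℤ), (∀ x ∈ E, IsCoprime x.1 x.2 ∧ (ht x : ℝ) ≤ B ∧
      ∃ y : ℤ, fm d c x = k * y ^ t) → (E.card : ℝ) ≤ K * B ^ ((3 : ℝ) / 2 + ε)

/-- FUL: sums over `m`-full numbers. -/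
def S_FUL : Prop := ∀ (m : ℕ) (σ : ℝ), 1 ≤ m → 1 / (m : ℝ) < σ → ∃ K : ℝ, 0 < K ∧
  ∀ E : Finset ℕ, (∀ n ∈ E, MF m n) → ∑ n ∈ E, (n : ℝ) ^ (-σ) ≤ K

/-- DIV: `m`-full divisors of suitable size. -/
def S_DIV : Prop := ∀ m n : ℕ, 1 ≤ m → MF m n → ∀ Y R : ℝ, 1 ≤ Y → 1 ≤ R →
  (∀ p : ℕ, p.Prime → p ∣ n → (p : ℝ) ^ m ≤ R) → Y < n →
    ∃ D : ℕ, D ∣ n ∧ MF m D ∧ Y < D ∧ (D : ℝ) ≤ Y * R

/-- SUN: the number of integers composed of the primes of `S`. -/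
def S_SUN : Prop := ∀ (S : Finset ℕ) (ε : ℝ), 0 < ε → ∃ K : ℝ, 0 < K ∧ ∀ X : ℝ, 1 ≤ X →
  ∀ E : Finset ℕ, (∀ n ∈ E, 0 < n ∧ (n : ℝ) ≤ X ∧ ∀ p : ℕ, p.Prime → p ∣ n → p ∈ S) →
    (E.card : ℝ) ≤ K * X ^ ε

/-- SPL: the large primes. -/
def S_SPL : Prop := ∀ (m : ℕ) (S : Finset ℕ) (Z : ℝ) (N : ℕ), 2 ≤ m → 1 < Z → 0 < N →
  (∀ p : ℕ, p.Prime → p ∉ S → p ∣ N → p ^ m ∣ N) → ∃ s A L : ℕ, N = s * A * L ∧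
    (∀ p : ℕ, p.Prime → p ∣ s → p ∈ S) ∧ MF m A ∧
    (∀ p : ℕ, p.Prime → p ∣ A → p ∉ S ∧ (p : ℝ) ≤ Z) ∧
    ((∃ t y : ℕ, t.Prime ∧ L = y ^ t ∧ (t = 2 ∨ Z ^ t ≤ (N : ℝ))) ∨ Z ^ (2 * m + 1) ≤ (N : ℝ))

/-- the Campana points of height at most `B` -/
def Pts (d : ℕ) (c : ℕ → ℤ) (m : ℕ) (S : Finset ℕ) (B : ℝ) : Set (ℤ × ℤ) :=
  {x | IsCoprime x.1 x.2 ∧ (ht x : ℝ) ≤ B ∧ fm d c x ≠ 0 ∧
    ∀ p : ℕ, p.Prime → p ∉ S → (p : ℤ) ∣ fm d c x → (p : ℤ) ^ m ∣ fm d c x}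

/-- the theorem -/
def S_MAIN : Prop := ∀ (d : ℕ) (c : ℕ → ℤ), 3 ≤ d → Red d c → ∀ m : ℕ, 2 ≤ m →
  d < 2 * (2 * m + 1) → ∀ (S : Finset ℕ) (ε : ℝ), 0 < ε → ∃ K : ℝ, 0 < K ∧ ∀ B : ℝ, 1 ≤ B →
    (Pts d c m S B).Finite ∧ ((Pts d c m S B).ncard : ℝ) ≤
      K * B ^ (max (3 / 2 + 1 / (2 * (m : ℝ))) (d / (2 * (m : ℝ) + 1)) + ε)

end Pool.Agent.L0h46.CV
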