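import Pool.Agent.L0h46.CV.Stm
import Pool.Agent.L0h46.TS.LAT
import Pool.Agent.L0h43.PL.Fin

/-!
# CV, module TB: the number of points at which `q` divides `F`
-/

set_option autoImplicit false

namespace Pool.Agent.L0h46.CV

open Finset

namespace TB

lemma clog_le (n : ℕ) (B : ℝ) (hn : 1 ≤ n) (hB : (n : ℝ) ≤ B) :
    (Nat.clog 2 n : ℝ) ≤ 1 + Real.log B / Real.log 2 := by
  have hl : 0 < Real.log 2 := Real.log_pos (by norm_num)
  have hB1 : 1 ≤ B := le_trans (by exact_mod_cast hn) hB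
  rcases hn.lt_or_eq with h | h
  · have h1 : 2 ^ (Nat.clog 2 n).pred < n := Nat.pow_pred_clog_lt_self (by norm_num) h
    have h2 : (2 : ℝ) ^ (Nat.clog 2 n - 1) ≤ B := by
      refine le_trans ?_ hB
      exact_mod_cast h1.le
    have h3 := Real.log_le_log (by positivity) h2
    rw [Real.log_pow] at h3
    have h4 : ((Nat.clog 2 n - 1 : ℕ) : ℝ) ≤ Real.log B / Real.log 2 := by
      rw [le_div_iff₀ hl]
      exact h3
    have h5 : (Nat.clog 2 n : ℝ) ≤ ((Nat.clog 2 n - 1 : ℕ) : ℝ) + 1 := by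
      exact_mod_cast (by omega : Nat.clog 2 n ≤ Nat.clog 2 n - 1 + 1)
    linarith
  · rw [← h, Nat.clog_one_right, Nat.cast_zero]
    have : 0 ≤ Real.log B / Real.log 2 := div_nonneg (Real.log_nonneg hB1) hl.le
    linarith

end TB

theorem tb (h : S_COL) : S_TB := by
  intro d c hd ε hε
  obtain ⟨C1, hC1, h1⟩ := Pool.Agent.L0h43.PL.pow_omega_le (d + 1) (by omega) ε hε
  obtain ⟨C2, hC2, h2⟩ := Pool.Agent.L0h46.TS.LAT.main (0, 1) (by simp)
  have hl : 0 < Real.log 2 := Real.log_pos (by norm_num)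
  set C3 : ℝ := 2 + 1 / (ε * Real.log 2) with hC3
  have hC30 : 0 < C3 := by positivity
  refine ⟨C1 * C3 * (2 * C2), by positivity, ?_⟩
  intro B hB q hq hg E hE
  have hB0 : 0 < B := by linarith
  have hqR : (0 : ℝ) < q := by exact_mod_cast hq
  obtain ⟨col, hc1, hc2⟩ := h d c hd q hq hg
  set J : ℕ := ⌊1 + Real.log B / Real.log 2⌋₊ with hJ
  have hlB : 0 ≤ Real.log B / Real.log 2 := div_nonneg (Real.log_nonneg hB) hl.le
  have hJ1 : ((J + 1 : ℕ) : ℝ) ≤ C3 * B ^ ε := by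
    have h3 : (J : ℝ) ≤ 1 + Real.log B / Real.log 2 := Nat.floor_le (by linarith)
    have h4 : Real.log B ≤ B ^ ε / ε := Real.log_le_rpow_div hB0.le hε
    have h5 : 1 ≤ B ^ ε := Real.one_le_rpow hB hε.le
    have h6 : Real.log B / Real.log 2 ≤ 1 / (ε * Real.log 2) * B ^ ε := by
      rw [div_le_iff₀ hl]
      calc Real.log B ≤ B ^ ε / ε := h4
        _ = 1 / (ε * Real.log 2) * B ^ ε * Real.log 2 := by field_simp
    push_cast
    rw [hC3, add_mul]
    linarith
  have hpos : ∀ x ∈ E, 1 ≤ ht x := by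
    intro x hx
    by_contra h0
    have h3 : ht x = 0 := by omega
    unfold ht at h3
    have h4 : x.1.natAbs = 0 ∧ x.2.natAbs = 0 := by omega
    have h5 := (hE x hx).1
    rw [Int.natAbs_eq_zero.1 h4.1, Int.natAbs_eq_zero.1 h4.2] at h5
    rw [isCoprime_zero_left] at h5
    exact not_isUnit_zero h5
  have hmap : ∀ x ∈ E, (col x, Nat.clog 2 (ht x)) ∈
      (range ((d + 1) ^ q.primeFactors.card)) ×ˢ range (J + 1) := by
    intro x hx
    rw [mem_product, mem_range, mem_range]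
    refine ⟨hc1 x (hE x hx).1 (hE x hx).2.2, ?_⟩
    have h3 := TB.clog_le (ht x) B (hpos x hx) (hE x hx).2.1
    exact Nat.lt_succ_of_le (Nat.le_floor h3)
  rw [Finset.card_eq_sum_card_fiberwise hmap]
  push_cast
  have hb : ∀ b ∈ (range ((d + 1) ^ q.primeFactors.card)) ×ˢ range (J + 1),
      ((E.filter fun x => (col x, Nat.clog 2 (ht x)) = b).card : ℝ) ≤
        2 * C2 * (1 + B ^ 2 / q) := by
    rintro ⟨i, j⟩ -
    rcases (E.filter fun x => (col x, Nat.clog 2 (ht x)) = (i, j)).eq_empty_or_nonempty with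
      h3 | ⟨x0, hx0⟩
    · rw [h3, card_empty, Nat.cast_zero]
      positivity
    · have hk : ∀ x ∈ E.filter fun x => (col x, Nat.clog 2 (ht x)) = (i, j),
          x ∈ E ∧ col x = i ∧ Nat.clog 2 (ht x) = j := by
        intro x hx
        rw [mem_filter, Prod.mk.injEq] at hx
        exact hx
      have hup : ∀ x ∈ E.filter fun x => (col x, Nat.clog 2 (ht x)) = (i, j),
          (2 : ℝ) ^ j / 2 < (ht x : ℝ) ∧ (ht x : ℝ) ≤ 2 * ((2 : ℝ) ^ j / 2) := by
        intro x hx
        obtain ⟨hx1, -, hx3⟩ := hk x hx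
        constructor
        · rw [← hx3]
          rcases (hpos x hx1).lt_or_eq with h5 | h5
          · have h6 : 2 ^ (Nat.clog 2 (ht x)).pred < ht x :=
              Nat.pow_pred_clog_lt_self (by norm_num) h5
            have h7 : Nat.clog 2 (ht x) ≠ 0 := by
              have := Nat.clog_pos (b := 2) (by norm_num) h5
              omega
            obtain ⟨e, he⟩ := Nat.exists_eq_succ_of_ne_zero h7
            rw [he] at h6 ⊢
            rw [Nat.pred_succ] at h6
            have h8 : ((2 : ℝ) ^ e) < (ht x : ℝ) := by exact_mod_cast h6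
            rw [Nat.succ_eq_add_one, pow_succ]
            linarith
          · rw [← h5, Nat.clog_one_right]
            norm_num
        · have h5 : ht x ≤ 2 ^ Nat.clog 2 (ht x) := Nat.le_pow_clog (by norm_num) _
          rw [hx3] at h5
          have h6 : (ht x : ℝ) ≤ (2 : ℝ) ^ j := by exact_mod_cast h5
          linarith
      have hHB : (2 : ℝ) ^ j / 2 ≤ B := ((hup x0 hx0).1.le).trans (hE x0 (hk x0 hx0).1).2.1
      have hH : (1 : ℝ) / 2 ≤ (2 : ℝ) ^ j / 2 := by
        have : (1 : ℝ) ≤ 2 ^ j := one_le_pow₀ (by norm_num)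
        linarith
      have h4 := h2 ((2 : ℝ) ^ j / 2) 2 hH (by norm_num) q 1 hq one_pos
        (E.filter fun x => (col x, Nat.clog 2 (ht x)) = (i, j)) ?_ ?_
      · refine h4.trans ?_
        have h5 : ((2 : ℝ) ^ j / 2) ^ 2 ≤ B ^ 2 := pow_le_pow_left₀ (by positivity) hHB 2
        have h6 : ((2 : ℝ) ^ j / 2) ^ 2 / q ≤ B ^ 2 / q := div_le_div_of_nonneg_right h5 hqR.le
        rw [Nat.cast_one, one_mul, mul_div_assoc]
        nlinarith [h6, hC2, mul_le_mul_of_nonneg_left h6 hC2.le]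
      · intro x hx
        obtain ⟨hx1, -, -⟩ := hk x hx
        refine ⟨(hE x hx1).1, (hup x hx).1, (hup x hx).2, ?_⟩
        have h5 := Pool.Agent.L0h46.TS.LAT.abs1 x
        have h6 : (Pool.Agent.L0h46.TQ.htn x : ℝ) ≤ 2 * ((2 : ℝ) ^ j / 2) := (hup x hx).2
        unfold Pool.Agent.L0h46.TS.LR
        simp only [mul_zero, mul_one, sub_zero]
        exact h5.trans h6
      · intro x hx y hy
        obtain ⟨hx1, hx2, -⟩ := hk x hx
        obtain ⟨hy1, hy2, -⟩ := hk y hy
        rw [Nat.cast_one, one_mul]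
        exact hc2 x y (hE x hx1).1 (hE y hy1).1 (hE x hx1).2.2 (hE y hy1).2.2 (hx2.trans hy2.symm)
  refine (Finset.sum_le_card_nsmul _ _ _ hb).trans ?_
  rw [card_product, card_range, card_range, nsmul_eq_mul, Nat.cast_mul]
  have h7 := h1 q hq.ne'
  have h8 : (0 : ℝ) ≤ 2 * C2 * (1 + B ^ 2 / q) := by positivity
  rw [Real.mul_rpow hB0.le hqR.le]
  calc (((d + 1) ^ q.primeFactors.card : ℕ) : ℝ) * ((J + 1 : ℕ) : ℝ) * (2 * C2 * (1 + B ^ 2 / q))
      ≤ (C1 * (q : ℝ) ^ ε) * (C3 * B ^ ε) * (2 * C2 * (1 + B ^ 2 / q)) := by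
        refine mul_le_mul_of_nonneg_right ?_ h8
        exact mul_le_mul h7 hJ1 (Nat.cast_nonneg _) (by positivity)
    _ = C1 * C3 * (2 * C2) * (B ^ ε * (q : ℝ) ^ ε) * (1 + B ^ 2 / q) := by ring

end Pool.Agent.L0h46.CV
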