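import Pool.Agent.L0h46.CV.Stm
import Pool.Agent.H174R3.D6.TaskLS
import Pool.Agent.TH915.UC.PAP

/-!
# Module WBA: values `k y ^ t` of a form, one coordinate fixed (large sieve)
-/

set_option autoImplicit false

namespace Pool.Agent.L0h46.CV

open Finset Polynomial

namespace WBAm

open Filter Topology

/-- the elementary asymptotic inequality -/
lemma ev_ineq {φ C1 C3 ε : ℝ} (hφ : 0 < φ) (hC1 : 0 ≤ C1) (hC3 : 0 ≤ C3) (hε : 0 < ε) :
    ∀ᶠ y : ℝ in atTop, y ^ (1 - 2 * ε) + C1 + C3 * Real.log y ≤ y / (2 * φ * Real.log y) := by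
  have h1 := (isLittleO_log_rpow_atTop (show 0 < 2 * ε by linarith)).def
    (show 0 < 1 / (6 * φ) by positivity)
  have h2 := (Real.isLittleO_pow_log_id_atTop (n := 1)).def
    (show 0 < 1 / (6 * φ * (C1 + 1)) by positivity)
  have h3 := (Real.isLittleO_pow_log_id_atTop (n := 2)).def
    (show 0 < 1 / (6 * φ * (C3 + 1)) by positivity)
  filter_upwards [h1, h2, h3, eventually_gt_atTop (1 : ℝ)] with y h1 h2 h3 hy
  have hy0 : 0 < y := by linarith
  have hL : 0 < Real.log y := Real.log_pos hy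
  have hp : 0 < y ^ (2 * ε) := Real.rpow_pos_of_pos hy0 _
  rw [Real.norm_of_nonneg hL.le, Real.norm_of_nonneg hp.le] at h1
  rw [pow_one, Real.norm_of_nonneg hL.le, id_eq, Real.norm_of_nonneg hy0.le] at h2
  rw [Real.norm_of_nonneg (by positivity), id_eq, Real.norm_of_nonneg hy0.le] at h3
  have a1 : y ^ (1 - 2 * ε) ≤ y / (6 * φ * Real.log y) := by
    rw [Real.rpow_sub hy0, Real.rpow_one]
    apply div_le_div_of_nonneg_left hy0.le (by positivity)
    rw [div_mul_eq_mul_div, one_mul, le_div_iff₀ (by positivity)] at h1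
    linarith
  have a2 : C1 ≤ y / (6 * φ * Real.log y) := by
    rw [le_div_iff₀ (by positivity)]
    rw [div_mul_eq_mul_div, one_mul, le_div_iff₀ (by positivity)] at h2
    have : C1 * (6 * φ * Real.log y) ≤ Real.log y * (6 * φ * (C1 + 1)) := by
      have : 0 ≤ Real.log y * (6 * φ) := by positivity
      nlinarith
    linarith
  have a3 : C3 * Real.log y ≤ y / (6 * φ * Real.log y) := by
    rw [le_div_iff₀ (by positivity)]
    rw [div_mul_eq_mul_div, one_mul, le_div_iff₀ (by positivity)] at h3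
    have : C3 * Real.log y * (6 * φ * Real.log y) ≤ Real.log y ^ 2 * (6 * φ * (C3 + 1)) := by
      have : 0 ≤ Real.log y ^ 2 * (6 * φ) := by positivity
      nlinarith
    linarith
  have e : y / (2 * φ * Real.log y) = 3 * (y / (6 * φ * Real.log y)) := by
    field_simp
    ring
  rw [e]
  linarith

lemma two_pow_card (n : ℕ) (hn : n ≠ 0) : 2 ^ n.primeFactors.card ≤ n := by
  calc 2 ^ n.primeFactors.card ≤ ∏ p ∈ n.primeFactors, p :=
        Finset.pow_card_le_prod _ _ _ fun p hp => (Nat.prime_of_mem_primeFactors hp).two_le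
    _ ≤ n := Nat.le_of_dvd (Nat.pos_of_ne_zero hn) (Nat.prod_primeFactors_dvd n)

lemma card_le_log (n : ℕ) (hn : n ≠ 0) : (n.primeFactors.card : ℝ) ≤ 2 * Real.log n := by
  have h1 : ((2 : ℝ)) ^ n.primeFactors.card ≤ n := by exact_mod_cast two_pow_card n hn
  have h2 := Real.log_le_log (by positivity) h1
  rw [Real.log_pow] at h2
  have h3 : (1 : ℝ) / 2 ≤ Real.log 2 := by
    have := Real.log_two_gt_d9
    linarith
  have h4 : (0 : ℝ) ≤ n.primeFactors.card := Nat.cast_nonneg _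
  nlinarith

/-- the sieve inequality -/
lemma sieve (X Q : ℕ) (P : Finset ℕ) (I : ℕ → Finset ℕ) (hP : ∀ q ∈ P, q.Prime)
    (hPQ : ∀ q ∈ P, q ≤ Q) (hI : ∀ q ∈ P, I q ⊆ range q)
    (hI2 : ∀ q ∈ P, ((I q).card : ℝ) ≤ 5 / 8 * q) (E : Finset ℕ) (hE : E ⊆ Icc 1 X)
    (hEI : ∀ n ∈ E, ∀ q ∈ P, n % q ∈ I q) :
    (E.card : ℝ) * (3 / 8 * (P.card : ℝ)) ^ 2 ≤ 6 * ((X : ℝ) + (Q : ℝ) ^ 2) * P.card := by
  classical
  have hinj : Set.InjOn (fun p : ℕ => ({p} : Finset ℕ)) (P : Set ℕ) :=
    fun a _ b _ h => Finset.singleton_injective h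
  have key := Pool.Agent.H174R3.D6LS.taskLS X Q P I (P.image fun p => ({p} : Finset ℕ))
    (fun _ => 1) hP hI (by
      intro s hs
      rw [Finset.mem_image] at hs
      obtain ⟨p, hp, rfl⟩ := hs
      refine ⟨Finset.singleton_subset_iff.2 hp, ?_⟩
      rw [Finset.prod_singleton]
      exact hPQ p hp)
  simp only [Finset.sum_image hinj, Finset.prod_singleton, one_mul, one_pow] at key
  have hr : ∑ p ∈ P, ((I p).card : ℝ) / p ≤ P.card := by
    calc ∑ p ∈ P, ((I p).card : ℝ) / p ≤ ∑ p ∈ P, (1 : ℝ) := by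
          apply Finset.sum_le_sum
          intro p hp
          have hp0 : (0 : ℝ) < p := by exact_mod_cast (hP p hp).pos
          rw [div_le_one hp0]
          have := hI2 p hp
          linarith
      _ = P.card := by simp
  have hl : (E.card : ℝ) * (3 / 8 * (P.card : ℝ)) ^ 2 ≤ ∑ n ∈ Icc 1 X, (∑ p ∈ P,
      ((if n % p ∈ I p then (1 : ℝ) else 0) - ((I p).card : ℝ) / p)) ^ 2 := by
    calc (E.card : ℝ) * (3 / 8 * (P.card : ℝ)) ^ 2 = ∑ n ∈ E, (3 / 8 * (P.card : ℝ)) ^ 2 := by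
          rw [Finset.sum_const, nsmul_eq_mul]
      _ ≤ ∑ n ∈ E, (∑ p ∈ P, ((if n % p ∈ I p then (1 : ℝ) else 0) -
            ((I p).card : ℝ) / p)) ^ 2 := by
          apply Finset.sum_le_sum
          intro n hn
          apply pow_le_pow_left₀ (by positivity)
          calc 3 / 8 * (P.card : ℝ) = ∑ p ∈ P, (3 / 8 : ℝ) := by
                rw [Finset.sum_const, nsmul_eq_mul, mul_comm]
            _ ≤ _ := by
                apply Finset.sum_le_sum
                intro p hp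
                have hp0 : (0 : ℝ) < p := by exact_mod_cast (hP p hp).pos
                rw [if_pos (hEI n hn p hp)]
                have h1 : ((I p).card : ℝ) / p ≤ 5 / 8 := by
                  rw [div_le_iff₀ hp0]
                  exact hI2 p hp
                linarith
      _ ≤ _ := Finset.sum_le_sum_of_subset_of_nonneg hE fun _ _ _ => sq_nonneg _
  refine hl.trans (key.trans ?_)
  apply mul_le_mul_of_nonneg_left hr
  positivity

end WBAm

open WBAm in
theorem wba (h1 : S_BAD) (h2 : S_CLS) : S_WBA := by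
  classical
  intro t d c ht hd hred M ε hε
  obtain ⟨D0, hD0, hbad⟩ := h1 d c (by omega) hred
  obtain ⟨K1, hK1, hcls⟩ := h2 t d ht hd
  obtain ⟨p0, hp0⟩ := exists_nat_ge (64 * K1 ^ 2)
  have hφ : (0 : ℝ) < t.totient := by exact_mod_cast Nat.totient_pos.2 ht.pos
  have hlD : 0 ≤ Real.log (D0 : ℝ) := Real.log_natCast_nonneg _
  have hlM : 0 ≤ Real.log (M : ℝ) := Real.log_natCast_nonneg _
  obtain ⟨Y0, hY0⟩ := Filter.eventually_atTop.1 ((ev_ineq (φ := (t.totient : ℝ))
    (C1 := (p0 : ℝ) + 1 + 2 * (Real.log (D0 : ℝ) + Real.log (M : ℝ)))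
    (C3 := 4 * ((M : ℝ) + 1)) hφ (by positivity) (by positivity) hε).and
    (Pool.Agent.TH915.UC.primes_ap_lower t 1 ht.pos (Nat.coprime_one_left t)))
  obtain ⟨B0, hB0⟩ : ∃ B0 : ℝ, B0 = (max Y0 1) ^ 2 := ⟨_, rfl⟩
  have hB01 : 1 ≤ B0 := by
    rw [hB0]
    have : (1 : ℝ) ≤ max Y0 1 := le_max_right _ _
    nlinarith
  refine ⟨3 * B0 + 171, by linarith, ?_⟩
  intro B hB k b hk hkM hb hbB E hE
  have hBp : 0 < B := by linarith
  obtain ⟨Nb, hNb⟩ : ∃ Nb : ℕ, Nb = ⌊B⌋₊ := ⟨_, rfl⟩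
  have hNbB : (Nb : ℝ) ≤ B := by rw [hNb]; exact Nat.floor_le hBp.le
  have hEN : ∀ a ∈ E, a.natAbs ≤ Nb := by
    intro a ha
    rw [hNb]
    apply Nat.le_floor
    have := (hE a ha).1
    rwa [Nat.cast_natAbs, Int.cast_abs]
  have hB12 : 1 ≤ B ^ ((1 : ℝ) / 2 + ε) := Real.one_le_rpow hB (by linarith)
  by_cases hBB : B < B0
  · -- small B
    have h3 : E ⊆ Finset.Icc (-(Nb : ℤ)) Nb := by
      intro a ha
      have := hEN a ha
      rw [Finset.mem_Icc]
      omega
    have h4 := Finset.card_le_card h3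
    rw [Int.card_Icc] at h4
    have h5 : E.card ≤ 2 * Nb + 1 := by omega
    have h6 : (E.card : ℝ) ≤ 2 * Nb + 1 := by exact_mod_cast h5
    nlinarith
  · rw [not_lt] at hBB
    obtain ⟨y, hy⟩ : ∃ y : ℝ, y = Real.sqrt B := ⟨_, rfl⟩
    have hyB : y ^ 2 = B := by rw [hy]; exact Real.sq_sqrt hBp.le
    have hyY : max Y0 1 ≤ y := by
      rw [hy, Real.le_sqrt' (by have : (1 : ℝ) ≤ max Y0 1 := le_max_right _ _; linarith), ← hB0]
      exact hBB
    have hy1 : 1 ≤ y := (le_max_right _ _).trans hyY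
    have hy0 : 0 < y := by linarith
    obtain ⟨hyi, hyp⟩ := hY0 y ((le_max_left _ _).trans hyY)
    obtain ⟨Q, hQ⟩ : ∃ Q : ℕ, Q = ⌊y⌋₊ := ⟨_, rfl⟩
    rw [← hQ] at hyp
    have hQy : (Q : ℝ) ≤ y := by rw [hQ]; exact Nat.floor_le hy0.le
    have hM1 : 1 ≤ M := by
      by_contra hcon
      have : M = 0 := by omega
      subst this
      have h3 : |(k : ℝ)| ≤ 0 := by simpa using hkM
      have h4 : (k : ℝ) = 0 := abs_nonpos_iff.1 h3
      exact hk (by exact_mod_cast h4)
    obtain ⟨n, hn⟩ : ∃ n : ℕ, n = D0 * k.natAbs * b.natAbs := ⟨_, rfl⟩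
    have hn0 : n ≠ 0 := by
      rw [hn]
      exact mul_ne_zero (mul_ne_zero hD0.ne' (Int.natAbs_ne_zero.2 hk)) (Int.natAbs_ne_zero.2 hb)
    have hMp : (0 : ℝ) < M := by exact_mod_cast hM1
    have hlogn : Real.log n ≤ Real.log (D0 : ℝ) + Real.log (M : ℝ) + 2 * ((M : ℝ) + 1) *
        Real.log y := by
      have hD0p : (0 : ℝ) < D0 := by exact_mod_cast hD0
      have h3 : (n : ℝ) ≤ D0 * (M * B ^ M) * B := by
        rw [hn]
        push_cast
        rw [Nat.cast_natAbs, Nat.cast_natAbs, Int.cast_abs, Int.cast_abs]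
        apply mul_le_mul _ hbB (abs_nonneg _) (by positivity)
        exact mul_le_mul_of_nonneg_left hkM hD0p.le
      have h4 := Real.log_le_log (by exact_mod_cast Nat.pos_of_ne_zero hn0) h3
      rw [Real.log_mul (by positivity) (by positivity), Real.log_mul (by positivity)
        (by positivity), Real.log_mul (by positivity) (by positivity), Real.log_pow, ← hyB,
        Real.log_pow] at h4
      push_cast at h4
      linarith
    have hω : (n.primeFactors.card : ℝ) ≤ 2 * (Real.log (D0 : ℝ) + Real.log (M : ℝ)) +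
        4 * ((M : ℝ) + 1) * Real.log y := by
      have := card_le_log n hn0
      linarith
    obtain ⟨P, hP⟩ : ∃ P : Finset ℕ, P = ((Icc 1 Q).filter (fun p => p.Prime ∧
      p ≡ 1 [MOD t])).filter (fun p => p0 < p ∧ ¬ p ∣ n) := ⟨_, rfl⟩
    have hAP : ((Icc 1 Q).filter (fun p => p.Prime ∧ p ≡ 1 [MOD t])).card ≤
        P.card + (p0 + 1) + n.primeFactors.card := by
      have h3 : (Icc 1 Q).filter (fun p => p.Prime ∧ p ≡ 1 [MOD t]) ⊆
          P ∪ range (p0 + 1) ∪ n.primeFactors := by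
        intro p hp
        have hpp : p.Prime := (Finset.mem_filter.1 hp).2.1
        rw [Finset.mem_union, Finset.mem_union, Finset.mem_range, Nat.mem_primeFactors, hP,
          Finset.mem_filter]
        by_cases h4 : p < p0 + 1
        · exact Or.inl (Or.inr h4)
        · by_cases h5 : p ∣ n
          · exact Or.inr ⟨hpp, h5, hn0⟩
          · exact Or.inl (Or.inl ⟨hp, by omega, h5⟩)
      refine (Finset.card_le_card h3).trans ((Finset.card_union_le _ _).trans ?_)
      have h4 := Finset.card_union_le P (range (p0 + 1))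
      rw [Finset.card_range] at h4
      omega
    have hAP' : (((Icc 1 Q).filter (fun p => p.Prime ∧ p ≡ 1 [MOD t])).card : ℝ) ≤
        P.card + (p0 + 1) + n.primeFactors.card := by exact_mod_cast hAP
    have hPz : y ^ (1 - 2 * ε) ≤ P.card := by linarith
    -- the sieve
    have hmemP : ∀ q ∈ P, q.Prime ∧ q ≤ Q ∧ t ∣ q - 1 ∧ p0 < q ∧ ¬ q ∣ n := by
      intro q hq
      rw [hP, Finset.mem_filter, Finset.mem_filter, Finset.mem_Icc] at hq
      obtain ⟨⟨⟨h3, h4⟩, h5, h6⟩, h7, h8⟩ := hq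
      exact ⟨h5, h4, (Nat.modEq_iff_dvd' h3).1 h6.symm, h7, h8⟩
    obtain ⟨I, hI⟩ : ∃ I : ℕ → Finset ℕ, ∀ p r, r ∈ I p ↔ (r < p ∧ ∃ z : ZMod p,
        ∑ i ∈ range (d + 1), (c i : ZMod p) * ((r : ZMod p) - ((Nb + 1 : ℕ) : ZMod p)) ^ i *
          (b : ZMod p) ^ (d - i) = (k : ZMod p) * z ^ t) :=
      ⟨fun p => (range p).filter fun r => ∃ z : ZMod p,
        ∑ i ∈ range (d + 1), (c i : ZMod p) * ((r : ZMod p) - ((Nb + 1 : ℕ) : ZMod p)) ^ i *
          (b : ZMod p) ^ (d - i) = (k : ZMod p) * z ^ t,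
        fun p r => by rw [Finset.mem_filter, Finset.mem_range]⟩
    have hI2 : ∀ q ∈ P, ((I q).card : ℝ) ≤ 5 / 8 * q := by
      intro q hq
      obtain ⟨hqp, -, htq, hpq, hqn⟩ := hmemP q hq
      have : NeZero q := ⟨hqp.ne_zero⟩
      have hq0 : (0 : ℝ) < q := by exact_mod_cast hqp.pos
      have hgd : Gd d c q := hbad q hqp fun h => hqn (by rw [hn, mul_assoc]; exact h.mul_right _)
      have hkq : (k : ZMod q) ≠ 0 := by
        rw [Ne, ZMod.intCast_zmod_eq_zero_iff_dvd, Int.natCast_dvd]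
        intro h
        exact hqn (by rw [hn]; exact (h.mul_left _).mul_right _)
      have hbq : (b : ZMod q) ≠ 0 := by
        rw [Ne, ZMod.intCast_zmod_eq_zero_iff_dvd, Int.natCast_dvd]
        intro h
        exact hqn (by rw [hn]; exact h.mul_left _)
      have h3 := hcls c q hgd htq (k : ZMod q) (b : ZMod q) hkq hbq
      have h4 : (I q).card ≤ {a : ZMod q | ∃ z : ZMod q, ∑ i ∈ range (d + 1),
          (c i : ZMod q) * a ^ i * (b : ZMod q) ^ (d - i) = (k : ZMod q) * z ^ t}.ncard := by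
        rw [← Set.ncard_coe_finset]
        refine Set.ncard_le_ncard_of_injOn
          (fun r : ℕ => (r : ZMod q) - ((Nb + 1 : ℕ) : ZMod q)) ?_ ?_ (Set.toFinite _)
        · intro r hr
          rw [Finset.mem_coe, hI] at hr
          exact hr.2
        · intro r hr r' hr' h
          rw [Finset.mem_coe, hI] at hr hr'
          have h5 : (r : ZMod q) = (r' : ZMod q) := sub_left_injective h
          rw [ZMod.natCast_eq_natCast_iff', Nat.mod_eq_of_lt hr.1, Nat.mod_eq_of_lt hr'.1] at h5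
          exact h5
      have h5 : ((I q).card : ℝ) ≤ q / t + K1 * Real.sqrt q := by
        refine le_trans ?_ h3
        exact_mod_cast h4
      have h6 : (q : ℝ) / t ≤ q / 2 := by
        apply div_le_div_of_nonneg_left hq0.le (by norm_num)
        exact_mod_cast ht.two_le
      have h7 : K1 * Real.sqrt q ≤ q / 8 := by
        have h8 : 8 * K1 ≤ Real.sqrt q := by
          apply Real.le_sqrt_of_sq_le
          have : (p0 : ℝ) < q := by exact_mod_cast hpq
          nlinarith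
        have h9 : Real.sqrt q * Real.sqrt q = q := Real.mul_self_sqrt hq0.le
        have h10 : 0 ≤ Real.sqrt q := Real.sqrt_nonneg _
        nlinarith
      linarith
    obtain ⟨E', hE'⟩ : ∃ E' : Finset ℕ, E' = E.image (fun a : ℤ => (a + (Nb + 1)).toNat) :=
      ⟨_, rfl⟩
    have hcard : E'.card = E.card := by
      rw [hE']
      apply Finset.card_image_of_injOn
      intro a ha a' ha' h
      have h3 := hEN a ha
      have h4 := hEN a' ha'
      simp only at h
      omega
    have hsub : E' ⊆ Icc 1 (2 * Nb + 1) := by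
      intro m hm
      rw [hE', Finset.mem_image] at hm
      obtain ⟨a, ha, rfl⟩ := hm
      have h3 := hEN a ha
      rw [Finset.mem_Icc]
      omega
    have hmem : ∀ m ∈ E', ∀ q ∈ P, m % q ∈ I q := by
      intro m hm q hq
      rw [hE', Finset.mem_image] at hm
      obtain ⟨a, ha, rfl⟩ := hm
      obtain ⟨hqp, -, -, -, -⟩ := hmemP q hq
      rw [hI]
      refine ⟨Nat.mod_lt _ hqp.pos, ?_⟩
      obtain ⟨z, hz⟩ := (hE a ha).2
      refine ⟨(z : ZMod q), ?_⟩
      have h3 := hEN a ha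
      have e1 : ((((a + (Nb + 1)).toNat % q : ℕ) : ZMod q)) - ((Nb + 1 : ℕ) : ZMod q) =
          (a : ZMod q) := by
        rw [ZMod.natCast_mod]
        have e2 : (((a + (Nb + 1)).toNat : ℕ) : ℤ) = a + (Nb + 1) := by omega
        have e3 : (((a + (Nb + 1)).toNat : ℕ) : ZMod q) = ((a + (Nb + 1) : ℤ) : ZMod q) := by
          rw [← e2]
          push_cast
          rfl
        rw [e3]
        push_cast
        ring
      rw [e1]
      have h4 := congrArg (Int.cast : ℤ → ZMod q) hz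
      unfold fm at h4
      push_cast at h4
      exact h4
    have key := sieve (2 * Nb + 1) Q P I (fun q hq => (hmemP q hq).1) (fun q hq => (hmemP q hq).2.1)
      (fun q _ r hr => Finset.mem_range.2 ((hI q r).1 hr).1) hI2 E' hsub hmem
    rw [hcard] at key
    have hz0 : 0 < y ^ (1 - 2 * ε) := Real.rpow_pos_of_pos hy0 _
    have hPpos : (0 : ℝ) < P.card := by linarith
    have h3 : 6 * (((2 * Nb + 1 : ℕ) : ℝ) + (Q : ℝ) ^ 2) ≤ 24 * B := by
      push_cast
      have : (Q : ℝ) ^ 2 ≤ B := by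
        rw [← hyB]
        exact pow_le_pow_left₀ (Nat.cast_nonneg _) hQy 2
      linarith
    have h4 : (E.card : ℝ) * (9 / 64 * P.card) ≤ 24 * B := by
      have h5 : ((E.card : ℝ) * (9 / 64 * P.card)) * P.card ≤ (24 * B) * P.card := by
        calc ((E.card : ℝ) * (9 / 64 * P.card)) * P.card =
            (E.card : ℝ) * (3 / 8 * (P.card : ℝ)) ^ 2 := by ring
          _ ≤ _ := key
          _ ≤ _ := mul_le_mul_of_nonneg_right h3 hPpos.le
      exact le_of_mul_le_mul_right h5 hPpos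
    have h5 : (E.card : ℝ) * y ^ (1 - 2 * ε) ≤ 171 * B := by
      have h6 : (E.card : ℝ) * y ^ (1 - 2 * ε) ≤ E.card * P.card :=
        mul_le_mul_of_nonneg_left hPz (Nat.cast_nonneg _)
      nlinarith
    have h6 : B = B ^ ((1 : ℝ) / 2 + ε) * y ^ (1 - 2 * ε) := by
      have e : y ^ (1 - 2 * ε) = B ^ ((1 : ℝ) / 2 - ε) := by
        rw [hy, Real.sqrt_eq_rpow, ← Real.rpow_mul hBp.le]
        congr 1
        ring
      rw [e, ← Real.rpow_add hBp]
      have : (1 : ℝ) / 2 + ε + (1 / 2 - ε) = 1 := by ring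
      rw [this, Real.rpow_one]
    have h7 : (E.card : ℝ) * y ^ (1 - 2 * ε) ≤ (171 * B ^ ((1 : ℝ) / 2 + ε)) *
        y ^ (1 - 2 * ε) := by
      rw [mul_assoc, ← h6]
      exact h5
    have h8 := le_of_mul_le_mul_right h7 hz0
    nlinarith

end Pool.Agent.L0h46.CV
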